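import Pool.Agent.P.MP_7bb7e1_gt.D.Sub

/-! Chains of an action groupoid relative to a perfect normal family of subgroups. -/

namespace Pool.Agent.P.MP_7bb7e1_gt.D

open FreeAbelianGroup

noncomputable section

variable {G Y Y' : Type} [Group G] [MulAction G Y] [MulAction G Y']

def h1 : FA (G × Y) →+ FA (Unit × Y) := lift fun a => of ((), a.1 • a.2) - of ((), a.2)

def h2 : FA ((G × G) × Y) →+ FA (G × Y) :=
  lift fun a => of (a.1.2, a.1.1 • a.2) - of (a.1.2 * a.1.1, a.2) + of (a.1.1, a.2)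

def h3 : FA ((G × G × G) × Y) →+ FA ((G × G) × Y) :=
  lift fun a => of ((a.1.2.1, a.1.2.2), a.1.1 • a.2) - of ((a.1.2.1 * a.1.1, a.1.2.2), a.2) +
    of ((a.1.1, a.1.2.2 * a.1.2.1), a.2) - of ((a.1.1, a.1.2.1), a.2)

lemma h1_of (f : G) (y : Y) : h1 (of (f, y)) = of ((), f • y) - of ((), y) := lift_apply_of _ _

lemma h2_of (f g : G) (y : Y) :
    h2 (of ((f, g), y)) = of (g, f • y) - of (g * f, y) + of (f, y) := lift_apply_of _ _

lemma h3_of (f g h : G) (y : Y) : h3 (of ((f, g, h), y)) =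
    of ((g, h), f • y) - of ((g * f, h), y) + of ((f, h * g), y) - of ((f, g), y) :=
  lift_apply_of _ _

lemma h1_h2 (z : FA ((G × G) × Y)) : h1 (h2 z) = 0 := by
  refine hom_eq (h1.comp h2) 0 (fun ⟨⟨f, g⟩, y⟩ => ?_) z
  simp only [AddMonoidHom.comp_apply, h2_of, map_add, map_sub, h1_of, mul_smul,
    AddMonoidHom.zero_apply]
  abel

lemma h2_h3 (z : FA ((G × G × G) × Y)) : h2 (h3 z) = 0 := by
  refine hom_eq (h2.comp h3) 0 (fun ⟨⟨f, g, h⟩, y⟩ => ?_) z
  simp only [AddMonoidHom.comp_apply, h3_of, map_add, map_sub, h2_of, mul_smul, mul_assoc,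
    AddMonoidHom.zero_apply]
  abel

/-- group chains -/
def b2 : FA (G × G) →+ FA G := lift fun a => of a.2 - of (a.2 * a.1) + of a.1

def b3 : FA (G × G × G) →+ FA (G × G) :=
  lift fun a => of (a.2.1, a.2.2) - of (a.2.1 * a.1, a.2.2) + of (a.1, a.2.2 * a.2.1) - of (a.1, a.2.1)

lemma b2_of (f g : G) : b2 (of (f, g)) = of g - of (g * f) + of f := lift_apply_of _ _

lemma b3_of (f g h : G) :
    b3 (of (f, g, h)) = of (g, h) - of (g * f, h) + of (f, h * g) - of (f, g) := lift_apply_of _ _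

/-- a chain placed at a point -/
def at_ {X : Type} (y : Y) : FA X →+ FA (X × Y) := FreeAbelianGroup.map fun x => (x, y)

omit [Group G] [MulAction G Y] in
lemma at_of {X : Type} (y : Y) (x : X) : at_ y (of x) = of (x, y) := rfl

/-- sum of the coefficients -/
def eps {X : Type} : FA X →+ ℤ := lift fun _ => 1

lemma eps_b2 (z : FA (G × G)) : eps (b2 z) = eps z := by
  refine hom_eq (eps.comp b2) eps (fun ⟨f, g⟩ => ?_) z
  simp [b2_of, eps]

/-- two-chains of a subgroup -/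
def C2 (K : Subgroup G) : AddSubgroup (FA (G × G)) :=
  AddSubgroup.closure {z | ∃ k ∈ K, ∃ k' ∈ K, z = of (k, k')}

lemma C2_eq {β : Type} [AddCommGroup β] {K : Subgroup G} (f g : FA (G × G) →+ β)
    (h : ∀ k ∈ K, ∀ k' ∈ K, f (of (k, k')) = g (of (k, k'))) {z : FA (G × G)} (hz : z ∈ C2 K) :
    f z = g z :=
  AddMonoidHom.eqOn_closure (by rintro _ ⟨k, hk, k', hk', rfl⟩; exact h k hk k' hk') hz

/-- the cycles of the groups of a family -/
def Zc (K : Y → Subgroup G) : AddSubgroup (FA ((G × G) × Y)) :=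
  AddSubgroup.closure {r | ∃ y, ∃ z ∈ C2 (K y), b2 z = 0 ∧ r = at_ y z}

lemma hom_zero {A : Type} [AddCommGroup A] {K : Subgroup G} (hK : K ≤ ⁅K, K⁆) (v : G → A)
    (hv : ∀ k ∈ K, ∀ k' ∈ K, v (k' * k) = v k' + v k) : ∀ k ∈ K, v k = 0 := by
  have h1 : v 1 = 0 := by simpa using hv 1 K.one_mem 1 K.one_mem
  have hi : ∀ k ∈ K, v k⁻¹ = -v k := fun k hk => by
    have := hv k hk k⁻¹ (K.inv_mem hk)
    rw [inv_mul_cancel, h1] at this
    exact eq_neg_of_add_eq_zero_left this.symm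
  let H : Subgroup G :=
    { carrier := {k | k ∈ K ∧ v k = 0}
      one_mem' := ⟨K.one_mem, h1⟩
      mul_mem' := fun {a b} ha hb => ⟨K.mul_mem ha.1 hb.1, by rw [hv b hb.1 a ha.1, ha.2, hb.2, add_zero]⟩
      inv_mem' := fun {a} ha => ⟨K.inv_mem ha.1, by rw [hi a ha.1, ha.2, neg_zero]⟩ }
  have : ⁅K, K⁆ ≤ H := Subgroup.commutator_le.mpr fun a ha b hb => by
    have ha' := K.inv_mem ha
    have hb' := K.inv_mem hb
    refine ⟨K.mul_mem (K.mul_mem (K.mul_mem ha hb) ha') hb', ?_⟩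
    rw [commutatorElement_def, hv _ hb' _ (K.mul_mem (K.mul_mem ha hb) ha'),
      hv _ ha' _ (K.mul_mem ha hb), hv _ hb _ ha, hi a ha, hi b hb]
    abel
  exact fun k hk => (this (hK hk)).2

/-- a cochain that kills the cycles of a perfect group is a coboundary -/
lemma cob_of_kill {A : Type} [AddCommGroup A] {K : Subgroup G} (hK : K ≤ ⁅K, K⁆)
    (b : FA (G × G) →+ A) (hb : ∀ z ∈ C2 K, b2 z = 0 → b z = 0) :
    ∃ β : G → A, ∀ k ∈ K, ∀ k' ∈ K, b (of (k, k')) = β k' - β (k' * k) + β k := by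
  have hg : ∀ k ∈ K, ∀ k' ∈ K, of (k, k') ∈ C2 K := fun k hk k' hk' =>
    AddSubgroup.subset_closure ⟨k, hk, k', hk', rfl⟩
  have h1 := hom_zero hK (fun k => QuotientAddGroup.mk' ((C2 K).map b2) (of k)) (by
    intro k hk k' hk'
    have : QuotientAddGroup.mk' ((C2 K).map b2) (b2 (of (k, k'))) = 0 :=
      (QuotientAddGroup.eq_zero_iff _).mpr ⟨_, hg k hk k' hk', rfl⟩
    rw [b2_of, map_add, map_sub] at this
    exact (sub_eq_zero.mp (by rw [← this]; abel)).symm)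
  have h2 : ∀ k, ∃ c, k ∈ K → c ∈ C2 K ∧ b2 c = of k := fun k => by
    by_cases hk : k ∈ K
    · obtain ⟨c, h3, h4⟩ := (QuotientAddGroup.eq_zero_iff _).mp (h1 k hk)
      exact ⟨c, fun _ => ⟨h3, h4⟩⟩
    · exact ⟨0, fun h => absurd h hk⟩
  choose c hc using h2
  refine ⟨fun k => b (c k), fun k hk k' hk' => ?_⟩
  have h3 := hb (of (k, k') - (c k' - c (k' * k) + c k))
    (sub_mem (hg k hk k' hk') (add_mem (sub_mem (hc _ hk').1 (hc _ (K.mul_mem hk' hk)).1) (hc _ hk).1))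
    (by rw [map_sub, map_add, map_sub, (hc _ hk').2, (hc _ (K.mul_mem hk' hk)).2, (hc _ hk).2, b2_of,
      sub_self])
  rwa [map_sub, map_add, map_sub, sub_eq_zero] at h3

/-- a perfect normal family -/
structure Fam (K : Y → Subgroup G) : Prop where
  fix : ∀ y, ∀ k ∈ K y, k • y = y
  conj : ∀ (g : G) y, ∀ k ∈ K (g • y), g⁻¹ * k * g ∈ K y
  perf : ∀ y, K y ≤ ⁅K y, K y⁆

/-- the coboundary of a two-cochain -/
def dl {A : Type} [AddCommGroup A] (b : G → G → Y → A) (f g h : G) (y : Y) : A :=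
  b g h (f • y) - b (g * f) h y + b f (h * g) y - b f g y

/-- subtracting a coboundary -/
def sb {A : Type} [AddCommGroup A] (b : G → G → Y → A) (ψ : G → Y → A) (f g : G) (y : Y) : A :=
  b f g y - (ψ g (f • y) - ψ (g * f) y + ψ f y)

lemma dl_sb {A : Type} [AddCommGroup A] (b : G → G → Y → A) (ψ : G → Y → A) :
    dl (sb b ψ) = dl b := by
  ext f g h y
  simp only [dl, sb, mul_smul, mul_assoc]
  abel

/-- invariance of a three-cochain -/
def Inv3 {A : Type} (K : Y → Subgroup G) (c : G → G → G → Y → A) : Prop :=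
  ∀ f g h y, ∀ k ∈ K y, ∀ k' ∈ K (f • y), ∀ k'' ∈ K (g • f • y),
    c (f * k) (g * k') (h * k'') y = c f g h y

/-- invariance of a two-cochain -/
def Inv2 {A : Type} (K : Y → Subgroup G) (b : G → G → Y → A) : Prop :=
  ∀ f g y, ∀ k ∈ K y, ∀ k' ∈ K (f • y), b (f * k) (g * k') y = b f g y

section HS

variable {A : Type} [AddCommGroup A] {K : Y → Subgroup G}

omit [AddCommGroup A] in
lemma Inv3.a {c : G → G → G → Y → A} (h : Inv3 K c) (f g : G) (y : Y) {k : G}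
    (hk : k ∈ K y) : c k f g y = c 1 f g y := by
  simpa using h 1 f g y k hk 1 (one_mem _) 1 (one_mem _)

lemma hs3 (hK : Fam K) (b : G → G → Y → A) (h : Inv3 K (dl b))
    (h0 : ∀ y, ∀ k ∈ K y, ∀ k' ∈ K y, b k k' y = b 1 1 y)
    (h1 : ∀ g y, ∀ k ∈ K y, b k g y = b 1 g y) : Inv2 K b := by
  have a1 : ∀ f g y, ∀ k ∈ K y, b (f * k) g y = b f g y := by
    intro f g y k hk
    have := h.a f g y hk
    simp only [dl, hK.fix y k hk, one_smul, mul_one, h1 _ y k hk] at this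
    linear_combination (norm := abel) -this
  have a1' : ∀ f g y, ∀ k ∈ K (f • y), b (k * f) g y = b f g y := by
    intro f g y k hk
    rw [← a1 f g y _ (hK.conj f y k hk)]
    congr 1
    group
  have a2 : ∀ f y, ∀ k ∈ K (f • y), b f k y - b f 1 y = 0 := by
    intro f y
    refine hom_zero (hK.perf _) _ fun k hk k' hk' => ?_
    have := h f 1 1 y 1 (one_mem _) k hk k' (by rwa [one_smul])
    simp only [dl, mul_one, one_mul, h0 _ k hk k' hk', a1' f k' y k hk] at this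
    linear_combination (norm := abel) this
  intro f g y k hk k' hk'
  rw [a1 f _ y k hk]
  have := h f 1 g y 1 (one_mem _) k' hk' 1 (one_mem _)
  simp only [dl, mul_one, one_mul, h1 _ _ k' hk', a1' f g y k' hk'] at this
  linear_combination (norm := abel) this + a2 f y k' hk'

lemma hs2 (hK : Fam K) (b : G → G → Y → A) (h : Inv3 K (dl b))
    (h0 : ∀ y, ∀ k ∈ K y, ∀ k' ∈ K y, b k k' y = 0) : ∃ ψ, Inv2 K (sb b ψ) := by
  have a0 : ∀ g y, ∀ k ∈ K y, b 1 (g * k) y = b 1 g y := by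
    intro g y k hk
    have := h 1 1 g y 1 (one_mem _) k (by rwa [one_smul]) 1 (one_mem _)
    simp only [dl, mul_one, one_mul, one_smul, h0 y 1 (one_mem _) k hk,
      h0 y 1 (one_mem _) 1 (one_mem _)] at this
    linear_combination (norm := abel) this
  have a1 : ∀ g y, ∀ k ∈ K y, ∀ k' ∈ K y,
      b (k' * k) g y = b k' g y + b k (g * k') y - b 1 g y := by
    intro g y k hk k' hk'
    have := h 1 1 g y k hk k' (by rwa [one_smul]) 1 (one_mem _)
    simp only [dl, mul_one, one_mul, one_smul, h0 y k hk k' hk', hK.fix y k hk,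
      h0 y 1 (one_mem _) 1 (one_mem _)] at this
    linear_combination (norm := abel) -this
  let σ : G → Y → G := fun g y => (QuotientGroup.mk g : G ⧸ K y).out
  have s1 : ∀ g y, (σ g y)⁻¹ * g ∈ K y := fun g y =>
    QuotientGroup.eq.mp (QuotientGroup.out_eq' _)
  have s2 : ∀ g y, ∀ k ∈ K y, σ (g * k) y = σ g y := fun g y k hk => by
    simp only [σ, QuotientGroup.mk_mul_of_mem g hk]
  let ψ : G → Y → A := fun g y => b 1 (σ g y) y - b ((σ g y)⁻¹ * g) (σ g y) y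
  have p1 : ∀ g y, ∀ k ∈ K y, ψ (g * k) y = ψ g y - (b k g y - b 1 g y) := by
    intro g y k hk
    have e1 := a1 (σ g y) y k hk _ (s1 g y)
    have e2 := a0 (σ g y) y _ (s1 g y)
    rw [mul_inv_cancel_left] at e1 e2
    simp only [ψ, s2 g y k hk, ← mul_assoc]
    linear_combination (norm := abel) -e1 - e2
  have p2 : ∀ y, ∀ k ∈ K y, ψ k y = ψ 1 y := by
    intro y k hk
    have := p1 1 y k hk
    rwa [one_mul, h0 y k hk 1 (one_mem _), h0 y 1 (one_mem _) 1 (one_mem _), sub_self,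
      sub_zero] at this
  refine ⟨ψ, hs3 hK _ (by rwa [dl_sb]) (fun y k hk k' hk' => ?_) fun g y k hk => ?_⟩
  · simp only [sb, hK.fix y k hk, one_smul, mul_one, h0 y k hk k' hk',
      h0 y 1 (one_mem _) 1 (one_mem _), p2 y k hk, p2 y k' hk', p2 y _ (mul_mem hk' hk)]
  · simp only [sb, hK.fix y k hk, one_smul, mul_one, p1 g y k hk, p2 y k hk]
    abel

lemma sb_sb (b : G → G → Y → A) (ψ ψ' : G → Y → A) : sb (sb b ψ) ψ' = sb b (ψ + ψ') := by
  ext f g y
  simp only [sb, Pi.add_apply]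
  abel

/-- the Hochschild-Serre lemma -/
lemma hs (hK : Fam K) (b : G → G → Y → A) (h : Inv3 K (dl b))
    (h0 : ∀ y, ∃ β : G → A, ∀ k ∈ K y, ∀ k' ∈ K y, b k k' y = β k' - β (k' * k) + β k) :
    ∃ ψ, Inv2 K (sb b ψ) := by
  choose β hβ using h0
  obtain ⟨ψ, hψ⟩ := hs2 hK (sb b fun g y => β y g) (by rwa [dl_sb]) fun y k hk k' hk' => by
    simp only [sb, hK.fix y k hk, hβ y k hk k' hk', sub_self]
  exact ⟨_, by rwa [sb_sb] at hψ⟩

/-- the same for a product of two families -/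
lemma hs_prod {Km Kp : Y → Subgroup G} (hK : Fam K) (hm : Fam Km) (hle : ∀ y, Km y ≤ K y)
    (hle' : ∀ y, Kp y ≤ K y) (hdec : ∀ y, ∀ k ∈ K y, ∃ c ∈ Kp y, c⁻¹ * k ∈ Km y)
    (hdis : ∀ y, ∀ k ∈ Kp y, k ∈ Km y → k = 1) (b : G → G → Y → A) (h : Inv3 K (dl b))
    (h0 : ∀ y, ∃ β : G → A, ∀ k ∈ Km y, ∀ k' ∈ Km y, b k k' y = β k' - β (k' * k) + β k)
    (h1 : ∀ y, ∃ β : G → A, ∀ k ∈ Kp y, ∀ k' ∈ Kp y, b k k' y = β k' - β (k' * k) + β k) :
    ∃ ψ, Inv2 K (sb b ψ) := by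
  obtain ⟨ψ, hψ⟩ := hs hm b (fun f g h' y k hk k' hk' k'' hk'' =>
    h f g h' y k (hle _ hk) k' (hle _ hk') k'' (hle _ hk'')) h0
  obtain ⟨ψ', hψ'⟩ := hs hK (sb b ψ) (by rwa [dl_sb]) fun y => by
    obtain ⟨β, hβ⟩ := h1 y
    choose! c hc hc' using hdec y
    refine ⟨fun k => β (c k) - ψ (c k) y, fun k hk k' hk' => ?_⟩
    have f1 := hK.fix y _ (hle' y (hc k hk))
    have e : c (k' * k) = c k' * c k := by
      have a1 := hc' _ (mul_mem hk' hk)
      have a2 := hm.conj (c k) y _ (f1.symm ▸ hc' k' hk')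
      have a3 := mul_mem a1 (inv_mem (mul_mem a2 (hc' k hk)))
      have a4 := hdis y _ (mul_mem (inv_mem (hc _ (mul_mem hk' hk))) (mul_mem (hc k' hk') (hc k hk)))
        (by rwa [show (c (k' * k))⁻¹ * (k' * k) * ((c k)⁻¹ * ((c k')⁻¹ * k') * c k *
          ((c k)⁻¹ * k))⁻¹ = (c (k' * k))⁻¹ * (c k' * c k) by group] at a3)
      exact inv_mul_eq_one.mp a4
    have := hψ (c k) (c k') y _ (hc' k hk) _ (f1.symm ▸ hc' k' hk')
    rw [mul_inv_cancel_left, mul_inv_cancel_left] at this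
    rw [this]
    simp only [e, sb, f1, hβ _ (hc k hk) _ (hc k' hk')]
    abel
  exact ⟨_, by rwa [sb_sb] at hψ'⟩

end HS

omit [Group G] [MulAction G Y] in
lemma lift_eq_zero {X Z A : Type} [AddCommGroup A] (π : X → Z) (b : FA X →+ A)
    (h : ∀ a a', π a = π a' → b (of a) = b (of a')) {r : FA X}
    (hr : FreeAbelianGroup.map π r = 0) : b r = 0 := by
  classical
  have := hom_eq b ((lift fun z => if h : ∃ a, π a = z then b (of h.choose) else 0).comp
    (FreeAbelianGroup.map π)) (fun a => by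
      have h' : ∃ a', π a' = π a := ⟨a, rfl⟩
      rw [AddMonoidHom.comp_apply, map_of_apply, lift_apply_of, dif_pos h']
      exact h _ _ h'.choose_spec.symm) r
  rw [this, AddMonoidHom.comp_apply, hr, map_zero]

section rel

variable {Z1 Z2 Z3 : Type} {K : Y → Subgroup G} {π1 : G × Y → Z1} {π2 : (G × G) × Y → Z2}
  {π3 : (G × G × G) × Y → Z3}

lemma rel1 (hK : Fam K) (H1 : ∀ f f' y y', π1 (f, y) = π1 (f', y') → y = y' ∧ f⁻¹ * f' ∈ K y)
    (H2 : Inv2 K fun f g y => π2 ((f, g), y)) {r : FA (G × Y)}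
    (hr : FreeAbelianGroup.map π1 r = 0) : ∃ ρ, FreeAbelianGroup.map π2 ρ = 0 ∧ h2 ρ = r := by
  let W := ((FreeAbelianGroup.map π2).ker).map (h2 (G := G) (Y := Y))
  have key : ∀ g y, ∀ k ∈ K y, QuotientAddGroup.mk' W (of (g * k, y)) =
      QuotientAddGroup.mk' W (of (g, y)) +
        (QuotientAddGroup.mk' W (of (k, y)) - QuotientAddGroup.mk' W (of (1, y))) := by
    intro g y k hk
    have : QuotientAddGroup.mk' W (h2 (of ((k, g), y) - of ((1, g), y))) = 0 := by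
      refine (QuotientAddGroup.eq_zero_iff _).mpr ⟨_, ?_, rfl⟩
      have := H2 1 g y k hk 1 (one_mem _)
      simp only [one_mul, mul_one] at this
      rw [SetLike.mem_coe, AddMonoidHom.mem_ker, map_sub, map_of_apply, map_of_apply, this, sub_self]
    simp only [map_sub, map_add, h2_of, hK.fix y k hk, one_smul, mul_one] at this
    linear_combination (norm := abel) -this
  have := lift_eq_zero π1 (QuotientAddGroup.mk' W) (by
    rintro ⟨f, y⟩ ⟨f', y'⟩ h
    obtain ⟨rfl, h'⟩ := H1 _ _ _ _ h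
    have a := hom_zero (hK.perf y) (fun k => QuotientAddGroup.mk' W (of (k, y)) -
      QuotientAddGroup.mk' W (of (1, y))) (fun k hk k' _ => by rw [key k' y k hk]; abel) _ h'
    have b := key f y _ h'
    rw [mul_inv_cancel_left, a, add_zero] at b
    exact b.symm) hr
  exact (QuotientAddGroup.eq_zero_iff _).mp this

lemma map_at (H2 : Inv2 K fun f g y => π2 ((f, g), y)) {y : Y} {z : FA (G × G)}
    (hz : z ∈ C2 (K y)) (h0 : b2 z = 0) : FreeAbelianGroup.map π2 (at_ y z) = 0 := by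
  have := C2_eq ((FreeAbelianGroup.map π2).comp (at_ y))
    ((zmultiplesHom _ (of (π2 ((1, 1), y)))).comp eps) (fun k hk k' hk' => by
      have := H2 1 1 y k hk k' (by rwa [one_smul])
      simp only [one_mul] at this
      simp [at_of, eps, this]) hz
  rw [AddMonoidHom.comp_apply, AddMonoidHom.comp_apply, ← eps_b2, h0, map_zero, map_zero] at this
  exact this

lemma rel2 {Km Kp : Y → Subgroup G} (hK : Fam K) (hm : Fam Km) (hp : ∀ y, Kp y ≤ ⁅Kp y, Kp y⁆)
    (hle : ∀ y, Km y ≤ K y) (hle' : ∀ y, Kp y ≤ K y)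
    (hdec : ∀ y, ∀ k ∈ K y, ∃ c ∈ Kp y, c⁻¹ * k ∈ Km y) (hdis : ∀ y, ∀ k ∈ Kp y, k ∈ Km y → k = 1)
    (H2' : ∀ f g f' g' y y', π2 ((f, g), y) = π2 ((f', g'), y') →
      y = y' ∧ f⁻¹ * f' ∈ K y ∧ g⁻¹ * g' ∈ K (f • y))
    (H3 : Inv3 K fun f g h y => π3 ((f, g, h), y))
    {r : FA ((G × G) × Y)} (hr : FreeAbelianGroup.map π2 r = 0) (hr' : h2 r = 0) :
    ∃ ρ, FreeAbelianGroup.map π3 ρ = 0 ∧ ∃ km ∈ Zc Km, ∃ kp ∈ Zc Kp, r = h3 ρ + (km + kp) := by
  let W := ((FreeAbelianGroup.map π3).ker).map (h3 (G := G) (Y := Y)) ⊔ (Zc Km ⊔ Zc Kp)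
  let B := QuotientAddGroup.mk' W
  have kill : ∀ K' : Y → Subgroup G, (∀ y, K' y ≤ ⁅K' y, K' y⁆) → Zc K' ≤ W →
      ∀ y, ∃ β : G → _, ∀ k ∈ K' y, ∀ k' ∈ K' y,
        B (of ((k, k'), y)) = β k' - β (k' * k) + β k := by
    intro K' a2 a3 y
    refine cob_of_kill (a2 y) (B.comp (at_ y)) fun z hz h0 => ?_
    exact (QuotientAddGroup.eq_zero_iff _).mpr (a3 (AddSubgroup.subset_closure ⟨y, z, hz, h0, rfl⟩))
  obtain ⟨ψ, hψ⟩ := hs_prod hK hm hle hle' hdec hdis (fun f g y => B (of ((f, g), y))) (by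
    intro f g h y k hk k' hk' k'' hk''
    have a1 : FreeAbelianGroup.map π3 (of ((f * k, g * k', h * k''), y) - of ((f, g, h), y)) = 0 := by
      have := H3 f g h y k hk k' hk' k'' hk''
      simp only at this
      rw [map_sub, map_of_apply, map_of_apply, this, sub_self]
    have a2 : B (h3 (of ((f * k, g * k', h * k''), y) - of ((f, g, h), y))) = 0 :=
      (QuotientAddGroup.eq_zero_iff _).mpr (AddSubgroup.mem_sup_left ⟨_, a1, rfl⟩)
    simp only [map_sub, map_add, h3_of] at a2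
    exact sub_eq_zero.mp a2) (kill Km hm.perf (le_sup_of_le_right le_sup_left))
    (kill Kp hp (le_sup_of_le_right le_sup_right))
  have a3 := lift_eq_zero π2 (B - (lift fun a => ψ a.1 a.2).comp h2) (by
    rintro ⟨⟨f, g⟩, y⟩ ⟨⟨f', g'⟩, y'⟩ h
    obtain ⟨rfl, a1, a2⟩ := H2' _ _ _ _ _ _ h
    have := hψ f g y _ a1 _ a2
    rw [mul_inv_cancel_left, mul_inv_cancel_left] at this
    simpa only [AddMonoidHom.sub_apply, AddMonoidHom.comp_apply, h2_of, map_add, map_sub,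
      lift_apply_of, sb] using this.symm) hr
  rw [AddMonoidHom.sub_apply, AddMonoidHom.comp_apply, hr', map_zero, sub_zero] at a3
  obtain ⟨_, ⟨ρ, a4, rfl⟩, k, a5, rfl⟩ :=
    AddSubgroup.mem_sup.mp ((QuotientAddGroup.eq_zero_iff _).mp a3)
  obtain ⟨km, a6, kp, a7, rfl⟩ := AddSubgroup.mem_sup.mp a5
  exact ⟨ρ, a4, km, a6, kp, a7, rfl⟩

end rel

end

end Pool.Agent.P.MP_7bb7e1_gt.D
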