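import Pool.Agent.P.MP_7bb7e1_gt.D.GV

/-! The main theorem from the four statements about the group of diffeomorphisms. -/

namespace Pool.Agent.P.MP_7bb7e1_gt.D

open Filter Topology Set FreeAbelianGroup

noncomputable section

lemma IsBdry.add {z z' : T3} (h : IsBdry z) (h' : IsBdry z') : IsBdry (z + z') := by
  obtain ⟨a, b, c, d, e, rfl⟩ := h
  obtain ⟨a', b', c', d', e', rfl⟩ := h'
  refine ⟨a + a', b + b', c + c', d + d', e + e', ?_⟩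
  simp only [map_add, Prod.mk_add_mk, Prod.mk.injEq]
  exact ⟨by abel, by abel, by abel, by abel⟩

lemma step {a : Ch 3 0} {b : Ch 2 1} {c : Ch 1 2} {d : Ch 0 3} (h : IsCycle (a, b, c, d)) :
    IsCycle (a, sd1 b, sd2 c, d + dh (T2 c)) ∧
      (IsBdry (a, sd1 b, sd2 c, d + dh (T2 c)) → IsBdry (a, b, c, d)) := by
  obtain ⟨h1, h2, h3⟩ := h
  simp only at h1 h2 h3
  have h4 := sub_eq_zero.mp h2
  refine ⟨⟨by rw [dv_sd1]; exact h1, by rw [dh_sd1, dv_sd2, h4, sub_self], ?_⟩, fun h => ?_⟩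
  · have : dh (T1 (dv c)) = 0 := by rw [dh_T1, ← h4, dh_dh, map_zero]
    simp only [map_add, ← dh_dv, dv_T2, map_sub, this]
    linear_combination (norm := abel) h3
  · have := h.add ⟨0, 0, T1 b, -T2 c, 0, rfl⟩
    simp only [map_zero, map_neg, dv_T1, dv_T2, dh_T1, h4, Prod.mk_add_mk] at this
    rwa [show a + (0 - 0) = a by abel, show sd1 b + (0 + (b - sd1 b)) = b by abel,
      show sd2 c + (T1 (dv c) - -(c - sd2 c - T1 (dv c))) = c by abel,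
      show d + dh (T2 c) + (-dh (T2 c) + 0) = d by abel] at this

lemma steps {a : Ch 3 0} {b : Ch 2 1} {c : Ch 1 2} {d : Ch 0 3} (h : IsCycle (a, b, c, d))
    (m : ℕ) : ∃ d', IsCycle (a, itr sd1 m b, itr sd2 m c, d') ∧
      (IsBdry (a, itr sd1 m b, itr sd2 m c, d') → IsBdry (a, b, c, d)) := by
  induction m with
  | zero => exact ⟨d, h, id⟩
  | succ m ih =>
    obtain ⟨d', h1, h2⟩ := ih
    exact ⟨_, (step h1).1, fun h => h2 ((step h1).2 h)⟩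

variable {I : Ch 2 1 →+ ℝ}

theorem inj_of (hA : S_Aff) (hP : S_Perf) (hI : S_Inj) (h : IsGV I) {z : T3} (hz : IsCycle z)
    (h0 : I z.2.1 = 0) : IsBdry z := by
  obtain ⟨a, b, c, d⟩ := z
  obtain ⟨m, ⟨b', hb⟩, c', hc⟩ := ((lift1 (cov2 hA) b).and (lift2 (cov1 hA) c)).exists
  obtain ⟨d', h1, h2⟩ := steps hz m
  obtain ⟨a', rfl⟩ := Sm_le v3 (small0 (cov3 hA) a)
  obtain ⟨d'', rfl⟩ := range_v0 hA d'
  rw [← hb, ← hc] at h1 h2
  refine h2 (isBdry_of_lift hP hI _ _ _ _ h1 ?_ fun ρ hρ => ?_)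
  · rw [← h.pr, hb, h.itr]
    exact h0
  · rw [← h.pr, hρ, map_zero]

lemma ev_C2 {l : Filter ℝ} {K : ℝ → Subgroup Gc} (h : ∀ g, ∀ᶠ x in l, g ∈ K x)
    (z : FA (Gc × Gc)) : ∀ᶠ x in l, z ∈ C2 (K x) := by
  induction z using FreeAbelianGroup.induction_on with
  | zero => exact .of_forall fun _ => zero_mem _
  | of a => exact ((h a.1).and (h a.2)).mono fun _ hx =>
      AddSubgroup.subset_closure ⟨_, hx.1, _, hx.2, rfl⟩
  | neg a ih => exact ih.mono fun _ => neg_mem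
  | add a b ha hb => exact (ha.and hb).mono fun _ hm => add_mem hm.1 hm.2

theorem surj_of (hS : S_Surj) (h : IsGV I) (r : ℝ) : ∃ z, IsCycle z ∧ I z.2.1 = r := by
  obtain ⟨k, k1, k2⟩ := hS r
  obtain ⟨x, hx⟩ := (ev_C2 ev_top k).exists
  obtain ⟨y, hy⟩ := (ev_C2 ev_bot k).exists
  have hx' : k ∈ C2 (Ks (pt x)) := C2_mono (Kl_le (pt x)) hx
  have hy' : k ∈ C2 (Ks (pt y)) := C2_mono (Kr_le (pt y)) hy
  set b := kp y (at_ (pt x) k) with hb
  have e1 : dvE b = at_ (pt x) k - at_ (pt y) k := by rw [hb, dvE_kp0, mv_at]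
  have e2 : dvE (h2 b) = 0 := by
    rw [← h2_dvE, e1, map_sub, h2_at _ hx', h2_at _ hy', k1, map_zero, map_zero, sub_zero]
  have e3 : dvE (kp 0 (h2 b)) = h2 b := by rw [dvE_kp, e2, map_zero, sub_zero]
  have e4 : dvE (h1 (kp 0 (h2 b))) = 0 := by rw [← h1_dvE, e3, h1_h2]
  refine ⟨(0, Pr v2 b, Pr v1 (kp 0 (h2 b)), -Pr v0 (kp 0 (h1 (kp 0 (h2 b))))), ⟨?_, ?_, ?_⟩, ?_⟩
  · rw [map_zero, zero_add, ← Pr_dvE, e1, map_sub, map_at inv2_pr hx' k1, map_at inv2_pr hy' k1,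
      sub_zero]
  · rw [← Pr_dvE, ← Pr_h2, e3, sub_self]
  · rw [map_neg, ← Pr_dvE, ← Pr_h1, dvE_kp, e4, map_zero, sub_zero, add_neg_cancel]
  · rw [h.pr, e1, map_sub, Bm_l (AddSubgroup.subset_closure ⟨pt x, k, hx, k1, rfl⟩),
      Bm_r (AddSubgroup.subset_closure ⟨pt y, k, hy, k1, rfl⟩), Bt_at, k2, sub_zero]

theorem main_of (hA : S_Aff) (hP : S_Perf) (hI : S_Inj) (hS : S_Surj) : Main := by
  obtain ⟨I, h⟩ := exists_GV hA
  refine ⟨⟨I, h, fun I' h' => h'.uniq hA h⟩, fun I h => ⟨fun z hz =>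
    ⟨inj_of hA hP hI h hz, ?_⟩, surj_of hS h⟩⟩
  rintro ⟨a, b, c, d, e, rfl⟩
  rw [map_add, h.dh hA, h.1, add_zero]

end

end Pool.Agent.P.MP_7bb7e1_gt.D
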