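import Pool.Agent.P.MP_7bb7e1_gt.Final
import Pool.Agent.P.MP_7bb7e1_gt.D.Fin

/-! The four statements about the group of diffeomorphisms, and the main theorem. -/

namespace Pool.Agent.P.MP_7bb7e1_gt.D

open FreeAbelianGroup groupHomology

noncomputable section

theorem s_aff : S_Aff := fun l m a b hl hab => by
  obtain ⟨g, -, hg⟩ := exists_aff (l := l) (m := m) (α := min a (l * a + m) - 1)
    (β := max b (l * b + m) + 1) hl hab (by linarith [min_le_left a (l * a + m)])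
    (by linarith [le_max_left b (l * b + m)]) (by linarith [min_le_right a (l * a + m)])
    (by linarith [le_max_right b (l * b + m)])
  exact ⟨g, hg⟩

theorem s_perf : S_Perf := fun _ _ _ hρ => perf' vs_pt.choose_spec hρ

/-- from finitely supported functions to the free abelian group -/
def toFA {X Y : Type} (φ : X → Y) : (X →₀ ℤ) →+ FA Y :=
  Finsupp.liftAddHom fun p => zmultiplesHom _ (of (φ p))

lemma toFA_single {X Y : Type} (φ : X → Y) (x : X) (n : ℤ) :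
    toFA φ (Finsupp.single x n) = n • of (φ x) := by
  simp [toFA]

lemma fs_eq {X β : Type} [AddCommGroup β] (f g : (X →₀ ℤ) →+ β)
    (h : ∀ x n, f (Finsupp.single x n) = g (Finsupp.single x n)) (z : X →₀ ℤ) : f z = g z :=
  DFunLike.congr_fun (Finsupp.addHom_ext h) z

lemma b2_toFA (z : Gc × Gc →₀ ℤ) :
    b2 (toFA Prod.swap z) = toFA id ((d₂₁ (Rep.trivial ℤ Gc ℤ)).hom z) := by
  refine fs_eq (b2.comp (toFA Prod.swap))
    ((toFA id).comp (d₂₁ (Rep.trivial ℤ Gc ℤ)).hom.toAddMonoidHom) (fun ⟨g, f⟩ n => ?_) z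
  have : (d₂₁ (Rep.trivial ℤ Gc ℤ)).hom (Finsupp.single (g, f) n) =
      Finsupp.single f n - Finsupp.single (g * f) n + Finsupp.single g n :=
    d₂₁_single (A := Rep.trivial ℤ Gc ℤ) (g, f) n
  simp only [AddMonoidHom.comp_apply, LinearMap.toAddMonoidHom_coe, this, map_add, map_sub,
    toFA_single, map_zsmul, Prod.swap_prod_mk, b2_of, id, smul_add, smul_sub]
  abel

lemma b3_toFA (z : Gc × Gc × Gc →₀ ℤ) : b3 (-toFA (fun p => (p.2.2, p.2.1, p.1)) z) =
    toFA Prod.swap ((d₃₂ (Rep.trivial ℤ Gc ℤ)).hom z) := by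
  refine fs_eq (b3.comp (-toFA fun p => (p.2.2, p.2.1, p.1)))
    ((toFA Prod.swap).comp (d₃₂ (Rep.trivial ℤ Gc ℤ)).hom.toAddMonoidHom)
    (fun ⟨g, h, j⟩ n => ?_) z
  have : (d₃₂ (Rep.trivial ℤ Gc ℤ)).hom (Finsupp.single (g, h, j) n) =
      Finsupp.single (h, j) n - Finsupp.single (g * h, j) n + Finsupp.single (g, h * j) n -
        Finsupp.single (g, h) n :=
    d₃₂_single (A := Rep.trivial ℤ Gc ℤ) (g, h, j) n
  simp only [AddMonoidHom.comp_apply, LinearMap.toAddMonoidHom_coe, this, map_add, map_sub,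
    toFA_single, map_zsmul, Prod.swap_prod_mk, b3_of, smul_add, smul_sub, AddMonoidHom.neg_apply,
    map_neg]
  abel

lemma BT_toFA (z : Gc × Gc →₀ ℤ) : BT (toFA Prod.swap z) = gv z := by
  rw [← gvHom_apply]
  refine fs_eq (BT.comp (toFA Prod.swap)) gvHom (fun ⟨g, f⟩ n => ?_) z
  rw [AddMonoidHom.comp_apply, toFA_single, map_zsmul, BT, lift_apply_of]
  simp [gvHom]

lemma toFA_inv {X Y : Type} (φ : X ≃ Y) : ∃ ψ : FA Y →+ (X →₀ ℤ),
    (∀ z, toFA φ (ψ z) = z) ∧ ∀ z, ψ (toFA φ z) = z := by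
  refine ⟨lift fun y => Finsupp.single (φ.symm y) 1, fun z => hom_eq ((toFA φ).comp _)
    (AddMonoidHom.id _) (fun y => ?_) z, fun z => fs_eq ((lift _).comp (toFA φ)) (AddMonoidHom.id _)
    (fun x n => ?_) z⟩
  · simp [toFA_single]
  · rw [AddMonoidHom.comp_apply, toFA_single, map_zsmul, lift_apply_of]
    simp

theorem s_inj : S_Inj := fun z h1 h2 => by
  obtain ⟨ψ, a1, -⟩ := toFA_inv (Equiv.prodComm Gc Gc)
  obtain ⟨ψ', -, a2⟩ := toFA_inv (Equiv.refl Gc)
  obtain ⟨z, rfl⟩ : ∃ y, toFA Prod.swap y = z := ⟨_, a1 z⟩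
  rw [b2_toFA] at h1
  have h3 : (d₂₁ (Rep.trivial ℤ Gc ℤ)).hom z = 0 :=
    (a2 _).symm.trans ((congrArg ψ' h1).trans (map_zero _))
  obtain ⟨w, rfl⟩ := mem_boundaries (z := z) h3 (BT_toFA z ▸ h2)
  exact ⟨_, b3_toFA w⟩

theorem s_surj : S_Surj := fun r => by
  obtain ⟨z, h1, h2⟩ := gv_surj r
  exact ⟨toFA Prod.swap z, by rw [b2_toFA, LinearMap.mem_ker.mp h1, map_zero],
    (BT_toFA z).trans h2⟩

theorem main : Main := main_of s_aff s_perf s_inj s_surj

end

end Pool.Agent.P.MP_7bb7e1_gt.D
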