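import Pool.Agent.P.MP_7bb7e1_gt.D.Lift

/-! The cone construction; cycles of the action groupoid project to boundaries. -/

namespace Pool.Agent.P.MP_7bb7e1_gt.D

open Filter Topology Set FreeAbelianGroup

noncomputable section

variable {q : ℕ}

lemma incl_self (j : Fin (q + 2)) (t : Sx q) : incl j t j = 0 := by
  simp [incl, FunOnFinite.linearMap_apply_apply]

lemma incl_above (j : Fin (q + 2)) (t : Sx q) (i : Fin (q + 1)) :
    incl j t (j.succAbove i) = t i := by
  simp only [incl, ContinuousMap.coe_mk, stdSimplex.map_coe, FunOnFinite.linearMap_apply_apply,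
    Fin.succAbove_right_inj]
  rw [Finset.sum_filter, Finset.sum_ite_eq' Finset.univ i]
  simp

/-- radial projection from the first vertex -/
def rad (t : Sx (q + 1)) : Sx q :=
  if h : t 0 < 1 then ⟨fun i => t i.succ / (1 - t 0),
    fun i => div_nonneg (stdSimplex.zero_le t _) (by linarith), by
      have := stdSimplex.sum_eq_one t
      rw [Fin.sum_univ_succ] at this
      rw [← Finset.sum_div, div_eq_one_iff_eq (by linarith)]
      linarith⟩
  else vx 0

lemma rad_apply {t : Sx (q + 1)} (h : t 0 < 1) (i : Fin (q + 1)) :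
    rad t i = t i.succ / (1 - t 0) := by
  rw [rad, dif_pos h]
  rfl

lemma cont_coord (i : Fin (q + 1)) : Continuous fun t : Sx q => t i :=
  (continuous_apply i).comp continuous_subtype_val

lemma continuousAt_rad {t : Sx (q + 1)} (h : t 0 < 1) : ContinuousAt rad t := by
  refine IsInducing.subtypeVal.continuousAt_iff.mpr (continuousAt_pi.mpr fun i => ?_)
  have : ContinuousAt (fun t : Sx (q + 1) => t i.succ / (1 - t 0)) t :=
    (cont_coord _).continuousAt.div (continuous_const.sub (cont_coord 0)).continuousAt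
      (by linarith)
  refine this.congr ?_
  filter_upwards [(cont_coord 0).continuousAt.eventually_lt_const h] with y hy
  exact (rad_apply hy i).symm

/-- the cone with vertex `x` -/
def cone (x : ℝ) (s : Pa q) : Pa (q + 1) where
  toFun t := x + (1 - t 0) * (s (rad t) - x)
  continuous_toFun := by
    refine continuous_const.add (continuous_iff_continuousAt.mpr fun t => ?_)
    have h0 : Continuous fun t : Sx (q + 1) => 1 - t 0 := continuous_const.sub (cont_coord 0)
    rcases lt_or_ge (t 0) 1 with h | h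
    · exact h0.continuousAt.mul
        ((s.continuous.continuousAt.comp (continuousAt_rad h)).sub continuousAt_const)
    · have h1 : 1 - t 0 = 0 := by linarith [stdSimplex.le_one t 0]
      obtain ⟨C, hC⟩ := (isCompact_range s.continuous).isBounded.exists_norm_le
      rw [ContinuousAt, h1, zero_mul]
      refine (h1 ▸ h0.tendsto t).zero_mul_isBoundedUnder_le
        (isBoundedUnder_of ⟨C + ‖x‖, fun y => ?_⟩)
      exact (norm_sub_le _ _).trans (add_le_add (hC _ ⟨_, rfl⟩) le_rfl)

lemma cone_zero (x : ℝ) (s : Pa q) : (cone x s).comp (incl 0) = s := by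
  ext t
  have h0 := incl_self 0 t
  have : rad (incl 0 t) = t := by
    ext i
    rw [rad_apply (by rw [h0]; exact one_pos), h0, sub_zero, div_one]
    exact incl_above 0 t i
  change x + (1 - incl 0 t 0) * (s (rad (incl 0 t)) - x) = s t
  rw [this, h0]
  ring

lemma cone_succ (x : ℝ) (s : Pa (q + 1)) (j : Fin (q + 2)) :
    (cone x s).comp (incl j.succ) = cone x (s.comp (incl j)) := by
  ext t
  have h0 : incl j.succ t 0 = t 0 := by
    simpa using incl_above j.succ t 0
  change x + (1 - incl j.succ t 0) * (s (rad (incl j.succ t)) - x) =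
    x + (1 - t 0) * (s (incl j (rad t)) - x)
  rcases lt_or_ge (t 0) 1 with h | h
  · have : rad (incl j.succ t) = incl j (rad t) := by
      ext i
      rw [rad_apply (h0 ▸ h), h0]
      refine Fin.succAboveCases j ?_ (fun k => ?_) i
      · rw [incl_self, incl_self, zero_div]
      · rw [incl_above, rad_apply h, ← Fin.succ_succAbove_succ, incl_above]
    rw [this, h0]
  · have h1 : 1 - t 0 = 0 := by linarith [stdSimplex.le_one t 0]
    rw [h0, h1, zero_mul, zero_mul]

/-- a point as a simplex -/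
def pt (x : ℝ) : Pa 0 := ContinuousMap.const _ x

lemma cone_one (x : ℝ) (s : Pa 0) : (cone x s).comp (incl 1) = pt x := by
  ext t
  have h0 : incl (1 : Fin 2) t 0 = 1 :=
    (incl_above (1 : Fin 2) t 0).trans (stdSimplex.eq_one_of_unique (X := Fin 1) t 0)
  change x + (1 - incl (1 : Fin 2) t 0) * _ = x
  rw [h0, sub_self, zero_mul, add_zero]

/-- the cone on chains -/
def kp {X : Type} (x : ℝ) : FA (X × Pa q) →+ FA (X × Pa (q + 1)) :=
  FreeAbelianGroup.map fun a => (a.1, cone x a.2)

/-- moving the base point -/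
def mv {X : Type} (x : ℝ) : FA (X × Pa 0) →+ FA (X × Pa 0) :=
  FreeAbelianGroup.map fun a => (a.1, pt x)

lemma dvE_kp0 {X : Type} (x : ℝ) (z : FA (X × Pa 0)) : dvE (kp x z) = z - mv x z := by
  refine hom_eq (dvE.comp (kp x)) (AddMonoidHom.id _ - mv x) (fun ⟨a, s⟩ => ?_) z
  simp only [AddMonoidHom.comp_apply, kp, mv, map_of_apply, dvE_of, AddMonoidHom.sub_apply,
    AddMonoidHom.id_apply]
  rw [Fin.sum_univ_two, cone_zero, cone_one]
  simp [sub_eq_add_neg]

lemma dvE_kp {X : Type} (x : ℝ) (z : FA (X × Pa (q + 1))) : dvE (kp x z) = z - kp x (dvE z) := by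
  refine hom_eq (dvE.comp (kp x)) (AddMonoidHom.id _ - (kp x).comp dvE) (fun ⟨a, s⟩ => ?_) z
  simp only [AddMonoidHom.comp_apply, kp, map_of_apply, dvE_of, AddMonoidHom.sub_apply,
    AddMonoidHom.id_apply, map_sum, map_zsmul]
  rw [Fin.sum_univ_succ, cone_zero]
  simp only [cone_succ, Fin.val_succ, pow_succ, mul_neg, mul_one, neg_smul, Finset.sum_neg_distrib]
  simp [sub_eq_add_neg]

lemma mv_dvE {X : Type} (x : ℝ) (z : FA (X × Pa 1)) : mv x (dvE z) = 0 := by
  refine hom_eq ((mv x).comp dvE) 0 (fun ⟨a, s⟩ => ?_) z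
  simp [mv, dvE_of, Fin.sum_univ_two]

lemma mem_Ks_pt {k : Gc} {x : ℝ} (h : k ∈ Kl x) : k ∈ Ks (pt x) := Kl_le (pt x) h

lemma ev_eq {α β : Type} [AddCommGroup β] {l : Filter ℝ} (f g : ℝ → FA α →+ β)
    (h : ∀ a, ∀ᶠ x in l, f x (of a) = g x (of a)) (z : FA α) : ∀ᶠ x in l, f x z = g x z := by
  induction z using FreeAbelianGroup.induction_on with
  | zero => exact .of_forall fun m => by rw [map_zero, map_zero]
  | of a => exact h a
  | neg a ih => exact ih.mono fun m hm => by rw [map_neg, map_neg, hm]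
  | add a b ha hb => exact (ha.and hb).mono fun m hm => by rw [map_add, map_add, hm.1, hm.2]

lemma dh_triv (x : ℝ) :
    dh (of ((sec (fun _ : Fin 5 => (1 : Gc))).comp (pt x))) = of (pr v3 ((1, 1, 1), pt x)) := by
  have e : v3 (1, 1, 1) = fun _ => 1 := by ext1 j; fin_cases j <;> simp [v3]
  simp only [dh_of, face_sec, pr, e, ← Finset.sum_smul]
  have : ∑ i : Fin (3 + 2), (-1 : ℤ) ^ i.1 = 1 := by decide
  rw [this, one_smul]

/-- cycles of the action groupoid project to boundaries -/
theorem isBdry_of_cycle (a : FA ((Gc × Gc × Gc) × Pa 0)) (b : FA ((Gc × Gc) × Pa 1))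
    (c : FA (Gc × Pa 2)) (d : FA (Unit × Pa 3)) (ha : h3 a + dvE b = 0) (hb : h2 b - dvE c = 0)
    (hc : h1 c + dvE d = 0) : IsBdry (Pr v3 a, Pr v2 b, Pr v1 c, Pr v0 d) := by
  have e1 := ev_eq (l := atTop) (fun x => h3.comp (mv x)) (fun x => (mv x).comp h3) (by
    rintro ⟨⟨f, g, h⟩, s⟩
    filter_upwards [ev_top f] with x hx
    have : f • pt x = pt x := ContinuousMap.ext fun t => (mem_Ks.mp (mem_Ks_pt hx) t).self_of_nhds
    simp only [AddMonoidHom.comp_apply, mv, map_of_apply, h3_of, map_add, map_sub, this]) a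
  have e2 := ev_eq (l := atTop) (fun x => (Pr v3).comp (mv x))
    (fun x => (zmultiplesHom _ (of (pr v3 ((1, 1, 1), pt x)))).comp eps) (by
    rintro ⟨⟨f, g, h⟩, s⟩
    filter_upwards [ev_top f, ev_top g, ev_top h] with x h1 h2 h3
    have := inv3_pr 1 1 1 (pt x) f (mem_Ks_pt h1) g (by simpa using mem_Ks_pt h2) h
      (by simpa using mem_Ks_pt h3)
    simp only [one_mul] at this
    simp [mv, eps, this]) a
  obtain ⟨x, e1, e2⟩ := (e1.and e2).exists
  simp only [AddMonoidHom.comp_apply, zmultiplesHom_apply] at e1 e2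
  have k1 : dvE (b + h3 (kp x a)) = 0 := by
    rw [map_add, ← h3_dvE, dvE_kp0, map_sub, e1, eq_neg_of_add_eq_zero_left ha, map_neg, mv_dvE]
    abel
  set u := b + h3 (kp x a) with hu
  have k2 : dvE (c - h2 (kp x u)) = 0 := by
    rw [map_sub, ← h2_dvE, dvE_kp, k1, map_zero, sub_zero, hu, map_add, h2_h3, add_zero,
      sub_eq_zero.mp hb, sub_self]
  set u' := c - h2 (kp x u) with hu'
  have k3 : dvE (d + h1 (kp x u')) = 0 := by
    rw [map_add, ← h1_dvE, dvE_kp, k2, map_zero, sub_zero, hu', map_sub, h1_h2, sub_zero,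
      add_comm, hc]
  refine ⟨eps a • of ((sec (fun _ : Fin 5 => (1 : Gc))).comp (pt x)), -Pr v3 (kp x a),
    Pr v2 (kp x u), -Pr v1 (kp x u'), Pr v0 (kp x (d + h1 (kp x u'))), ?_⟩
  simp only [map_neg, map_zsmul, dh_triv, ← Pr_dvE, ← Pr_h1, ← Pr_h2, ← Pr_h3, dvE_kp0, dvE_kp, k1,
    k2, k3, map_zero, sub_zero, map_sub, e2]
  simp only [hu', map_sub, map_add, Prod.mk.injEq]
  refine ⟨by abel, ?_, by abel, by abel⟩
  rw [hu, map_add]
  abel

end

end Pool.Agent.P.MP_7bb7e1_gt.D
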