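import Mathlib

/-!
The double complex of singular chains on the nerve of the groupoid of germs of orientation
preserving smooth local diffeomorphisms of the line, and the Godbillon-Vey cocycle on it.
-/

namespace Pool.Agent.P.MP_7bb7e1_gt.BG

open Filter Topology
open scoped ContDiff

noncomputable section

/-- `f` is an orientation preserving smooth local diffeomorphism near `x` -/
def LocDiff (f : ℝ → ℝ) (x : ℝ) : Prop :=
  (∀ᶠ y in 𝓝 x, ContDiffAt ℝ ∞ f y) ∧ 0 < deriv f x

/-- germs of real functions at points of the line -/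
def Et : Type := Σ x : ℝ, Germ (𝓝 x) ℝ

/-- the germ of `f` at `x` -/
def germ (f : ℝ → ℝ) (x : ℝ) : Et := ⟨x, (f : Germ (𝓝 x) ℝ)⟩

/-- the sheaf topology -/
instance topEt : TopologicalSpace Et :=
  .generateFrom {s | ∃ (f : ℝ → ℝ) (U : Set ℝ), IsOpen U ∧ s = germ f '' U}

/-- the nerve: families of germs `γ i j` of local diffeomorphisms with `γ j k ∘ γ i j = γ i k` -/
def Nv (p : ℕ) : Type :=
  {γ : Fin (p + 1) → Fin (p + 1) → Et // ∀ i j k, ∃ x f g, LocDiff f x ∧ LocDiff g (f x) ∧
    γ i j = germ f x ∧ γ j k = germ g (f x) ∧ γ i k = germ (g ∘ f) x}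

/-- the topology of a subspace of a product -/
instance topNv (p : ℕ) : TopologicalSpace (Nv p) := instTopologicalSpaceSubtype

/-- the face maps of the nerve -/
def face {p : ℕ} (i : Fin (p + 2)) : C(Nv (p + 1), Nv p) where
  toFun γ := ⟨fun a b => γ.1 (i.succAbove a) (i.succAbove b), fun _ _ _ => γ.2 _ _ _⟩
  continuous_toFun := by
    refine Continuous.subtype_mk (continuous_pi fun a => continuous_pi fun b => ?_) _
    exact (continuous_apply_apply (i.succAbove a) (i.succAbove b)).comp continuous_subtype_val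

/-- the standard simplex -/
def Sx (q : ℕ) : Type := stdSimplex ℝ (Fin (q + 1))

/-- the usual topology -/
instance topSx (q : ℕ) : TopologicalSpace (Sx q) := instTopologicalSpaceSubtype

/-- the vertices of the standard simplex -/
def vx {q : ℕ} (j : Fin (q + 1)) : Sx q := stdSimplex.vertex j

/-- the faces of the standard simplex -/
def incl {q : ℕ} (j : Fin (q + 2)) : C(Sx q, Sx (q + 1)) :=
  ⟨stdSimplex.map j.succAbove, stdSimplex.continuous_map _⟩

/-- singular `q`-simplices of the `p`-th space of the nerve -/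
def Sp (p q : ℕ) : Type := C(Sx q, Nv p)

/-- the alternating sum of face maps -/
def alt {α β : Type} {n : ℕ} (d : Fin n → α → β) : FreeAbelianGroup α →+ FreeAbelianGroup β :=
  FreeAbelianGroup.lift fun σ => ∑ i : Fin n, (-1 : ℤ) ^ i.1 • .of (d i σ)

/-- the boundary in the direction of the nerve -/
def dh {p q : ℕ} (z : FreeAbelianGroup (Sp (p + 1) q)) : FreeAbelianGroup (Sp p q) :=
  alt (fun i σ => (face i).comp σ) z

/-- the singular boundary -/
def dv {p q : ℕ} (z : FreeAbelianGroup (Sp p (q + 1))) : FreeAbelianGroup (Sp p q) :=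
  alt (fun j σ => ContinuousMap.comp σ (incl j)) z

/-- three-cycles of the total complex, whose boundary is `dh + (-1) ^ p dv` -/
def IsCycle (a : FreeAbelianGroup (Sp 3 0)) (b : FreeAbelianGroup (Sp 2 1))
    (c : FreeAbelianGroup (Sp 1 2)) (d : FreeAbelianGroup (Sp 0 3)) : Prop :=
  dh a + dv b = 0 ∧ dh b - dv c = 0 ∧ dh c + dv d = 0

/-- three-boundaries of the total complex -/
def IsBdry (a : FreeAbelianGroup (Sp 3 0)) (b : FreeAbelianGroup (Sp 2 1))
    (c : FreeAbelianGroup (Sp 1 2)) (d : FreeAbelianGroup (Sp 0 3)) : Prop :=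
  ∃ (u : FreeAbelianGroup (Sp 4 0)) (v : FreeAbelianGroup (Sp 3 1)) (w : FreeAbelianGroup (Sp 2 2))
    (x : FreeAbelianGroup (Sp 1 3)) (y : FreeAbelianGroup (Sp 0 4)),
    a = dh u - dv v ∧ b = dh v + dv w ∧ c = dh w - dv x ∧ d = dh x + dv y

/-- `I` is integration of the closed one-form `log (g' ∘ f) d log f'` over the paths in the space
of composable pairs of germs `(f, g)` -/
def IsGV (I : FreeAbelianGroup (Sp 2 1) →+ ℝ) : Prop :=
  (∀ w : FreeAbelianGroup (Sp 2 2), I (dv w) = 0) ∧
    ∀ (σ : C(Sx 1, Nv 2)) (s : Sx 1 → ℝ) (f g : ℝ → ℝ),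
      (∀ t, (σ t).1 0 1 = germ f (s t) ∧ (σ t).1 1 2 = germ g (f (s t))) →
      I (.of σ) = ∫ x in s (vx 0)..s (vx 1),
        Real.log (deriv g (f x)) * (deriv (deriv f) x / deriv f x)

end

end Pool.Agent.P.MP_7bb7e1_gt.BG
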