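import Pool.Agent.P.MP_7bb7e1_gt.D.Int

/-! Existence and uniqueness of the integration map. -/

namespace Pool.Agent.P.MP_7bb7e1_gt.D

open Filter Topology Set FreeAbelianGroup MeasureTheory

noncomputable section

/-- the path `σ` is given by one pair of functions -/
def Loc (σ : C(Sx 1, Nv 2)) (s : Sx 1 → ℝ) (f g : ℝ → ℝ) : Prop :=
  ∀ t, (σ t).1 0 1 = germ f (s t) ∧ (σ t).1 1 2 = germ g (f (s t))

variable {σ : C(Sx 1, Nv 2)} {s s' : Sx 1 → ℝ} {f g f' g' : ℝ → ℝ}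

lemma Loc.cont (h : Loc σ s f g) : Continuous s := by
  have : s = fun t => ((σ t).1 0 1).1 := funext fun t => by rw [(h t).1]; rfl
  rw [this]
  exact continuous_base.comp
    (((continuous_apply_apply 0 1).comp continuous_subtype_val).comp σ.continuous)

lemma Loc.mem (h : Loc σ s f g) {a b : Sx 1} {x : ℝ} (hx : x ∈ uIcc (s a) (s b)) :
    ∃ t, s t = x := by
  have : PreconnectedSpace (Sx 1) :=
    isPreconnected_iff_preconnectedSpace.mp (convex_stdSimplex ℝ _).isPreconnected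
  rcases le_total (s a) (s b) with h1 | h1
  · exact intermediate_value_univ a b h.cont (uIcc_of_le h1 ▸ hx)
  · exact intermediate_value_univ b a h.cont (uIcc_of_ge h1 ▸ hx)

lemma LocDiff.congr {x : ℝ} (h : LocDiff f x) (e : f =ᶠ[𝓝 x] f') : LocDiff f' x :=
  ⟨(h.1.and e.eventuallyEq_nhds).mono fun _ hy => hy.1.congr_of_eventuallyEq hy.2.symm,
    e.deriv_eq ▸ h.2⟩

lemma Loc.diff (h : Loc σ s f g) (t : Sx 1) : LocDiff f (s t) ∧ LocDiff g (f (s t)) := by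
  obtain ⟨x, f', g', a1, a2, a3, a4, -⟩ := (σ t).2 0 1 2
  obtain ⟨rfl, b1⟩ := germ_eq_iff.mp (a3.symm.trans (h t).1)
  obtain ⟨b2, b3⟩ := germ_eq_iff.mp (a4.symm.trans (h t).2)
  exact ⟨a1.congr b1, b2 ▸ a2.congr b3⟩

lemma Loc.int (h : Loc σ s f g) (a b : Sx 1) :
    IntervalIntegrable (om f g) volume (s a) (s b) := by
  refine ContinuousOn.intervalIntegrable fun x hx => ?_
  obtain ⟨t, rfl⟩ := h.mem hx
  exact (continuousAt_om (h.diff t).1 (h.diff t).2).continuousWithinAt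

lemma Loc.uniq (h : Loc σ s f g) (h' : Loc σ s' f' g') :
    ∫ x in s (vx 0)..s (vx 1), om f g x = ∫ x in s' (vx 0)..s' (vx 1), om f' g' x := by
  obtain rfl : s = s' := funext fun t => (germ_eq_iff.mp ((h t).1.symm.trans (h' t).1)).1
  refine intervalIntegral.integral_congr fun x hx => ?_
  obtain ⟨t, rfl⟩ := h.mem hx
  exact om_congr (germ_eq_iff.mp ((h t).1.symm.trans (h' t).1)).2
    (germ_eq_iff.mp ((h t).2.symm.trans (h' t).2)).2

lemma Loc.comp (h : Loc σ s f g) (φ : C(Sx 1, Sx 1)) : Loc (σ.comp φ) (s ∘ φ) f g :=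
  fun t => h (φ t)

lemma loc_pr (f g : Gc) (s : Pa 1) : Loc (pr v2 ((f, g), s)) s (fn f) (fn g) := fun t =>
  ⟨by simp [pr, sec, v2], by simp [pr, sec, v2, fn]⟩

open Classical in
/-- the integral over the paths that are given by one pair of functions -/
def J : Ch 2 1 →+ ℝ := lift fun σ =>
  if h : ∃ a : (Sx 1 → ℝ) × (ℝ → ℝ) × (ℝ → ℝ), Loc σ a.1 a.2.1 a.2.2 then
    ∫ x in h.choose.1 (vx 0)..h.choose.1 (vx 1), om h.choose.2.1 h.choose.2.2 x else 0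

lemma J_of (h : Loc σ s f g) : J (of σ) = ∫ x in s (vx 0)..s (vx 1), om f g x := by
  have h' : ∃ a : (Sx 1 → ℝ) × (ℝ → ℝ) × (ℝ → ℝ), Loc σ a.1 a.2.1 a.2.2 := ⟨(s, f, g), h⟩
  rw [J, lift_apply_of, dif_pos h']
  exact h'.choose_spec.uniq h

lemma J_A1 (h : Loc σ s f g) (a b : Sx 1) : J (A1 σ a b) = ∫ x in s a..s b, om f g x := by
  rw [A1, J_of (h.comp _), Function.comp_apply, Function.comp_apply, aff_vx, aff_vx]
  rfl

/-- the chains made of such paths -/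
def Lc : AddSubgroup (Ch 2 1) := AddSubgroup.closure {z | ∃ σ s f g, Loc σ s f g ∧ z = of σ}

lemma sd1_of (σ : C(Sx 1, Nv 2)) :
    sd1 (of σ) = A1 σ (vx 0) (mid (vx 0) (vx 1)) + A1 σ (mid (vx 0) (vx 1)) (vx 1) :=
  lift_apply_of _ _

lemma sd1_Lc {z : Ch 2 1} (hz : z ∈ Lc) : sd1 z ∈ Lc := by
  have : Lc ≤ Lc.comap sd1 := (AddSubgroup.closure_le _).mpr (by
    rintro _ ⟨σ, s, f, g, h, rfl⟩
    rw [SetLike.mem_coe, AddSubgroup.mem_comap, sd1_of]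
    exact add_mem (AddSubgroup.subset_closure ⟨_, _, _, _, h.comp _, rfl⟩)
      (AddSubgroup.subset_closure ⟨_, _, _, _, h.comp _, rfl⟩))
  exact this hz

lemma J_sd1 {z : Ch 2 1} (hz : z ∈ Lc) : J (sd1 z) = J z := by
  refine AddMonoidHom.eqOn_closure (f := J.comp sd1) ?_ hz
  rintro _ ⟨σ, s, f, g, h, rfl⟩
  rw [AddMonoidHom.comp_apply, sd1_of, map_add, J_A1 h, J_A1 h, J_of h]
  exact intervalIntegral.integral_add_adjacent_intervals (h.int _ _) (h.int _ _)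

lemma range_le_Lc : (Pr (q := 1) v2).range ≤ Lc := by
  rintro _ ⟨b, rfl⟩
  have : ∀ᶠ _ : ℕ in atTop, Pr v2 b ∈ Lc := ev_mem (fun _ => Pr v2) _
    (fun ⟨⟨f, g⟩, s⟩ => .of_forall fun _ =>
      AddSubgroup.subset_closure ⟨_, _, _, _, loc_pr f g s, rfl⟩) b
  exact this.exists.choose_spec

lemma pr_val {I : Ch 2 1 →+ ℝ}
    (h : ∀ σ s f g, Loc σ s f g → I (of σ) = ∫ x in s (vx 0)..s (vx 1), om f g x)
    (b : FA ((Gc × Gc) × Pa 1)) : I (Pr v2 b) = Bs Iic (dvE b) := by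
  refine hom_eq (I.comp (Pr v2)) ((Bs Iic).comp dvE) (fun ⟨⟨f, g⟩, s⟩ => ?_) b
  rw [AddMonoidHom.comp_apply, AddMonoidHom.comp_apply, Bm_dvE]
  exact h _ _ _ _ (loc_pr f g s)

lemma lift1 {p : ℕ} {X : Type} {v : X → Fin (p + 1) → Gc}
    (hv : ∀ γ, ∃ x, γ ∈ Uc (v x)) (z : Ch p 1) :
    ∀ᶠ m in atTop, ∃ b, Pr v b = itr sd1 m z :=
  (small1 (fun _ => isOpen_Uc _) hv z).mono fun _ hm => Sm_le v hm

lemma lift2 {p : ℕ} {X : Type} {v : X → Fin (p + 1) → Gc}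
    (hv : ∀ γ, ∃ x, γ ∈ Uc (v x)) (z : Ch p 2) :
    ∀ᶠ m in atTop, ∃ b, Pr v b = itr sd2 m z :=
  (small2 (fun _ => isOpen_Uc _) hv z).mono fun _ hm => Sm_le v hm

lemma J_stab {z : Ch 2 1} {m : ℕ} (hz : itr sd1 m z ∈ Lc) :
    ∀ᶠ n in atTop, J (itr sd1 m z) = J (itr sd1 n z) := by
  filter_upwards [eventually_ge_atTop m] with n hn
  have : itr sd1 n z ∈ Lc ∧ J (itr sd1 m z) = J (itr sd1 n z) := by
    induction n, hn using Nat.le_induction with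
    | base => exact ⟨hz, rfl⟩
    | succ n _ ih => exact ⟨sd1_Lc ih.1, ih.2.trans (J_sd1 ih.1).symm⟩
  exact this.2

lemma dvE_dvE {X : Type} (c : FA (X × Pa 2)) : dvE (dvE c) = 0 := by
  refine hom_eq (dvE.comp dvE) 0 (fun ⟨f, s⟩ => ?_) c
  have e (i : Fin 3) (j : Fin 2) (i' : Fin 3) (j' : Fin 2)
      (h : i.succAbove (j.succAbove 0) = i'.succAbove (j'.succAbove 0)) :
      (s.comp (incl i)).comp (incl j) = (s.comp (incl i')).comp (incl j') := by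
    ext t
    rw [Subsingleton.elim t (vx 0)]
    simp only [ContinuousMap.comp_apply, incl_vx, h]
  rw [AddMonoidHom.comp_apply, dvE_of, Fin.sum_univ_three]
  simp only [map_add, map_zsmul, dvE_one]
  rw [e 0 0 1 0 rfl, e 0 1 2 0 rfl, e 1 1 2 1 rfl]
  simp

theorem exists_GV (hA : S_Aff) : ∃ I, IsGV I := by
  have h1 : ∀ σ : C(Sx 1, Nv 2), ∃ r, ∀ᶠ n in atTop, r = J (itr sd1 n (of σ)) := fun σ => by
    obtain ⟨m, hm⟩ := (lift1 (cov2 hA) (of σ)).exists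
    exact ⟨_, J_stab (range_le_Lc hm)⟩
  choose r hr using h1
  have h2 : ∀ z, ∀ᶠ n in atTop, lift r z = J (itr sd1 n z) := fun z =>
    (ev_mem (fun n => lift r - J.comp (itr sd1 n)) ⊥ (fun σ => (hr σ).mono fun n hn => by
      rw [AddSubgroup.mem_bot, AddMonoidHom.sub_apply, lift_apply_of, hn]
      exact sub_self _) z).mono fun n hn => sub_eq_zero.mp (AddSubgroup.mem_bot.mp hn)
  refine ⟨lift r, fun w => ?_, fun σ s f g h => ?_⟩
  · obtain ⟨m, a1, c, a2⟩ := ((h2 (dv w)).and (lift2 (cov2 hA) w)).exists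
    rw [a1, ← dv_itr, ← a2, ← Pr_dvE, pr_val fun _ _ _ _ => J_of, dvE_dvE, map_zero]
  · obtain ⟨m, a1, a2⟩ := ((h2 (of σ)).and
      (J_stab (m := 0) (z := of σ) (AddSubgroup.subset_closure ⟨_, _, _, _, h, rfl⟩))).exists
    rw [a1, ← a2]
    exact J_of h

variable {I I' : Ch 2 1 →+ ℝ}

lemma IsGV.pr (h : IsGV I) (b : FA ((Gc × Gc) × Pa 1)) : I (Pr v2 b) = Bs Iic (dvE b) :=
  pr_val h.2 b

lemma IsGV.sd (h : IsGV I) (z : Ch 2 1) : I (sd1 z) = I z := by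
  have := h.1 (T1 z)
  rw [dv_T1, map_sub] at this
  exact (sub_eq_zero.mp this).symm

lemma IsGV.itr (h : IsGV I) (m : ℕ) (z : Ch 2 1) : I (itr sd1 m z) = I z := by
  induction m with
  | zero => rfl
  | succ m ih => exact (h.sd _).trans ih

lemma IsGV.uniq (hA : S_Aff) (h : IsGV I) (h' : IsGV I') : I = I' := by
  refine AddMonoidHom.ext fun z => ?_
  obtain ⟨m, b, hb⟩ := (lift1 (cov2 hA) z).exists
  rw [← h.itr m, ← h'.itr m, ← hb, h.pr, h'.pr]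

lemma IsGV.dh (hA : S_Aff) (h : IsGV I) (w : Ch 3 1) : I (dh w) = 0 := by
  obtain ⟨m, b, hb⟩ := (lift1 (cov3 hA) w).exists
  rw [← h.itr m, ← dh_itr, ← hb, ← Pr_h3, h.pr, ← h3_dvE, Bm_h3]

end

end Pool.Agent.P.MP_7bb7e1_gt.D
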