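import Pool.Agent.P.MP_7bb7e1_gt.Basic
import Pool.Agent.P.MP_7bb7e1_gt.D.Alg

/-! Compactly supported diffeomorphisms: extension of germs, cutting, perfect families. -/

namespace Pool.Agent.P.MP_7bb7e1_gt.D

open Filter Topology Set
open scoped ContDiff

noncomputable section

/-- affine maps are realised on compact intervals -/
def S_Aff : Prop := ∀ l m a b : ℝ, 0 < l → a ≤ b → ∃ g : Gc, ∀ x, a ≤ x → x ≤ b → g • x = l * x + m

/-- local perfectness -/
def S_Perf : Prop :=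
  ∀ a b ρ : ℝ, 0 < ρ → GI a b ≤ ⁅GI (a - ρ) (b + ρ), GI (a - ρ) (b + ρ)⁆

/-- the underlying function -/
def fn (g : Gc) : ℝ → ℝ := fun x => g • x

lemma fn_smooth (g : Gc) : ContDiff ℝ ∞ (fn g) := g.2.1

lemma fn_cont (g : Gc) : Continuous (fn g) := (fn_smooth g).continuous

instance : ContinuousConstSMul Gc ℝ := ⟨fn_cont⟩

lemma fn_mul (g h : Gc) : fn (g * h) = fn g ∘ fn h := funext fun x => mul_smul g h x

lemma fn_one : fn 1 = id := funext fun x => one_smul _ x

lemma fn_cpt (g : Gc) : ∃ M : ℝ, ∀ x, M ≤ |x| → g • x = x := g.2.2.2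

lemma fn_diff (g : Gc) : Differentiable ℝ (fn g) := (fn_smooth g).differentiable (by simp)

lemma fn_mono (g : Gc) : StrictMono (fn g) := by
  refine ((fn_cont g).strictMono_of_inj (MulAction.injective g)).resolve_right fun h => ?_
  obtain ⟨M, hM⟩ := fn_cpt g
  have h1 := h (show |M| < |M| + 1 by linarith)
  have a1 : fn g |M| = |M| := hM _ (by rw [abs_abs]; exact le_abs_self M)
  have a2 : fn g (|M| + 1) = |M| + 1 :=
    hM _ ((le_abs_self M).trans ((le_add_of_nonneg_right zero_le_one).trans (le_abs_self _)))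
  rw [a1, a2] at h1
  linarith

lemma deriv_mul_fn (g h : Gc) (x : ℝ) :
    deriv (fn (g * h)) x = deriv (fn g) (h • x) * deriv (fn h) x := by
  rw [fn_mul, deriv_comp x (fn_diff g _) (fn_diff h _)]
  rfl

lemma fn_pos (g : Gc) (x : ℝ) : 0 < deriv (fn g) x := by
  refine lt_of_le_of_ne (fn_mono g).monotone.deriv_nonneg fun h => ?_
  have := deriv_mul_fn g⁻¹ g x
  rw [inv_mul_cancel, fn_one, deriv_id, ← h, mul_zero] at this
  exact one_ne_zero this

lemma locDiff_fn (g : Gc) (x : ℝ) : LocDiff (fn g) x :=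
  ⟨.of_forall fun _ => (fn_smooth g).contDiffAt, fn_pos g x⟩

lemma mk_Gc {F : ℝ → ℝ} (hF : ContDiff ℝ ∞ F) (hp : ∀ x, 0 < deriv F x) {M : ℝ}
    (hM : ∀ x, M ≤ |x| → F x = x) : ∃ g : Gc, fn g = F := by
  have h1 : StrictMono F := strictMono_of_deriv_pos hp
  have h2 : Function.Surjective F := by
    refine hF.continuous.surjective (tendsto_id.congr' ?_) (tendsto_id.congr' ?_)
    · filter_upwards [eventually_ge_atTop M] with x hx
      exact (hM x (hx.trans (le_abs_self x))).symm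
    · filter_upwards [eventually_le_atBot (-M)] with x hx
      exact (hM x (le_trans (by linarith) (neg_le_abs x))).symm
  let e := (h1.orderIsoOfSurjective F h2).toHomeomorph
  have h3 : ContDiff ℝ ∞ e.symm := e.contDiff_symm_deriv (fun x => (hp x).ne')
    (fun x => (hF.differentiable (by simp) x).hasDerivAt) hF
  exact ⟨⟨e.toEquiv, hF, h3, M, hM⟩, rfl⟩

lemma exists_ext (hA : S_Aff) {f : ℝ → ℝ} {x : ℝ} (hf : LocDiff f x) :
    ∃ g : Gc, fn g =ᶠ[𝓝 x] f := by
  obtain ⟨hs, hm⟩ := hf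
  set m := deriv f x with hm'
  obtain ⟨g₀, hg₀⟩ := hA m (f x - m * x) (x - 3) (x + 3) hm (by linarith)
  let φ : ContDiffBump (0 : ℝ) := ⟨1, 2, one_pos, one_lt_two⟩
  have hφ : ContDiff ℝ ∞ φ := φ.contDiff
  obtain ⟨C, hC⟩ := (φ.hasCompactSupport.deriv).exists_bound_of_continuous
    (hφ.continuous_deriv (by simp))
  have hC0 : 0 ≤ C := (norm_nonneg _).trans (hC 0)
  let h : ℝ → ℝ := fun t => f t - (m * t + (f x - m * x))
  have hd : ∀ t, ContDiffAt ℝ ∞ f t → HasDerivAt h (deriv f t - m) t := fun t ht => by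
    have := (ht.differentiableAt (by simp)).hasDerivAt.sub
      (((hasDerivAt_id t).const_mul m).add_const (f x - m * x))
    rw [mul_one] at this
    exact this
  set ε := m / (2 * (1 + 3 * C)) with hε
  have hε0 : 0 < ε := by positivity
  have e1 : ∀ᶠ t in 𝓝 x, |deriv f t - m| ≤ ε := by
    have : ContinuousAt (deriv f) x :=
      (hs.self_of_nhds.derivWithin (m := 0) (by simp)).continuousAt
    exact (Metric.tendsto_nhds.mp this ε hε0).mono fun t ht => ht.le
  have e2 : ∀ᶠ t in 𝓝 x, |h t| ≤ ε * |t - x| := by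
    have := (hd x hs.self_of_nhds).isLittleO.bound hε0
    simpa [h, ← hm'] using this
  obtain ⟨r, hr, hb⟩ := Metric.eventually_nhds_iff.mp (hs.and (e1.and e2))
  set δ := min (r / 3) 1 with hδ
  have hδ0 : 0 < δ := lt_min (by linarith) one_pos
  have hδ1 : 3 * δ ≤ r := by linarith [min_le_left (r / 3) 1]
  have hδ2 : δ ≤ 1 := min_le_right _ _
  have hin : ContDiff ℝ ∞ fun t : ℝ => (t - x) / δ := (contDiff_id.sub contDiff_const).div_const δ
  have hz : ∀ t, 2 * δ ≤ |t - x| → φ ((t - x) / δ) = 0 := fun t ht =>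
    φ.zero_of_le_dist (by
      rw [dist_zero_right, Real.norm_eq_abs, abs_div, abs_of_pos hδ0, le_div_iff₀ hδ0]; exact ht)
  have hz' : ∀ t, 3 * δ ≤ |t - x| →
      (fun t => fn g₀ t + φ ((t - x) / δ) * h t) =ᶠ[𝓝 t] fn g₀ := fun t ht => by
    have : ∀ᶠ y in 𝓝 t, 2 * δ < |y - x| :=
      (continuous_id.sub continuous_const).abs.continuousAt.eventually_const_lt (by
        change 2 * δ < |t - x|; linarith)
    filter_upwards [this] with y hy
    rw [hz y hy.le, zero_mul, add_zero]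
  obtain ⟨M, hM⟩ := fn_cpt g₀
  obtain ⟨g, hg⟩ := mk_Gc (F := fun t => fn g₀ t + φ ((t - x) / δ) * h t) (M := max M (|x| + 2))
    (by
      refine contDiff_iff_contDiffAt.mpr fun t => ?_
      rcases lt_or_ge |t - x| (3 * δ) with ht | ht
      · refine (fn_smooth g₀).contDiffAt.add ((hφ.comp hin).contDiffAt.mul ?_)
        exact (hb (ht.trans_le hδ1)).1.sub (by fun_prop)
      · exact (fn_smooth g₀).contDiffAt.congr_of_eventuallyEq (hz' t ht))
    (by
      intro t
      rcases lt_or_ge |t - x| (3 * δ) with ht | ht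
      · obtain ⟨b1, b2, b3⟩ := hb (show dist t x < r from ht.trans_le hδ1)
        have d0 : HasDerivAt (fn g₀) m t := by
          have : fn g₀ =ᶠ[𝓝 t] fun y => m * y + (f x - m * x) := by
            have := abs_lt.mp ht
            filter_upwards [Icc_mem_nhds (show x - 3 < t by linarith) (show t < x + 3 by linarith)]
              with y hy using hg₀ y hy.1 hy.2
          refine HasDerivAt.congr_of_eventuallyEq ?_ this
          simpa using ((hasDerivAt_id t).const_mul m).add_const (f x - m * x)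
        have d1 : HasDerivAt (fun t => φ ((t - x) / δ)) (deriv φ ((t - x) / δ) * (1 / δ)) t :=
          (hφ.differentiable (by simp) _).hasDerivAt.comp t
            (((hasDerivAt_id t).sub_const x).div_const δ)
        have d2 := (d0.add (d1.mul (hd t b1))).deriv
        change 0 < deriv (fn g₀ + (fun t => φ ((t - x) / δ)) * h) t
        rw [d2]
        have c1 : |deriv φ ((t - x) / δ) * (1 / δ) * h t| ≤ C * (1 / δ) * (ε * (3 * δ)) := by
          rw [abs_mul, abs_mul, abs_of_pos (by positivity : 0 < 1 / δ)]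
          gcongr
          · exact hC _
          · exact b3.trans (by gcongr)
        have c2 : |φ ((t - x) / δ) * (deriv f t - m)| ≤ 1 * ε := by
          rw [abs_mul, abs_of_nonneg φ.nonneg]
          gcongr
          exact φ.le_one
        have c3 : C * (1 / δ) * (ε * (3 * δ)) + 1 * ε = m / 2 := by rw [hε]; field_simp; ring
        linarith [(abs_le.mp c1).1, (abs_le.mp c2).1]
      · rw [(hz' t ht).deriv_eq]
        exact fn_pos _ _)
    (by
      intro t ht
      have : 2 * δ ≤ |t - x| := by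
        linarith [le_max_right M (|x| + 2), abs_sub_abs_le_abs_sub t x]
      rw [hz t this, zero_mul, add_zero]
      exact hM t ((le_max_left _ _).trans ht))
  refine ⟨g, ?_⟩
  filter_upwards [Icc_mem_nhds (show x - δ < x by linarith) (show x < x + δ by linarith)] with t ht
  rw [hg]
  have : φ ((t - x) / δ) = 1 := φ.one_of_mem_closedBall (by
    rw [mem_closedBall_zero_iff, Real.norm_eq_abs, abs_div, abs_of_pos hδ0, div_le_iff₀ hδ0]
    exact abs_le.mpr ⟨by linarith [ht.1], by linarith [ht.2]⟩)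
  have a := hg₀ t (by linarith [ht.1]) (by linarith [ht.2])
  simp only [this, fn, a, h]
  ring

lemma exists_cut (g : Gc) {a : ℝ} (h : ∀ᶠ y in 𝓝 a, g • y = y) :
    ∃ g' : Gc, ∀ x, g' • x = if x ≤ a then g • x else x := by
  have e : ∀ t, (fun x => if x ≤ a then g • x else x) =ᶠ[𝓝 t] fn g ∨
      (fun x => if x ≤ a then g • x else x) =ᶠ[𝓝 t] id := fun t => by
    rcases lt_trichotomy t a with h1 | rfl | h1
    · exact Or.inl ((eventually_lt_nhds h1).mono fun y hy => if_pos hy.le)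
    · exact Or.inr (h.mono fun y hy => by simp [hy])
    · exact Or.inr ((eventually_gt_nhds h1).mono fun y hy => if_neg hy.not_ge)
  obtain ⟨M, hM⟩ := fn_cpt g
  obtain ⟨g', hg'⟩ := mk_Gc (F := fun x => if x ≤ a then g • x else x) (M := M)
    (contDiff_iff_contDiffAt.mpr fun t => (e t).elim
      (fun h => (fn_smooth g).contDiffAt.congr_of_eventuallyEq h)
      fun h => contDiffAt_id.congr_of_eventuallyEq h)
    (fun t => (e t).elim (fun h => h.deriv_eq ▸ fn_pos g t) fun h => by simp [h.deriv_eq])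
    fun x hx => by simp [hM x hx]
  exact ⟨g', fun x => congrFun hg' x⟩

/-- the elements that fix pointwise some set of a filter -/
def KF (l : Filter ℝ) : Subgroup Gc where
  carrier := {k | ∀ᶠ y in l, k • y = y}
  one_mem' := .of_forall fun y => one_smul _ y
  mul_mem' := fun {a b} ha hb => (Eventually.and ha hb).mono fun y hy => by
    rw [mul_smul, hy.2, hy.1]
  inv_mem' := fun {a} ha => Eventually.mono ha fun y hy => inv_smul_eq_iff.mpr hy.symm

lemma KF_mono {l l' : Filter ℝ} (h : l ≤ l') : KF l' ≤ KF l := fun _ hk => h hk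

lemma KF_conj {l l' : Filter ℝ} {g k : Gc} (h : Tendsto (fn g) l l') (hk : k ∈ KF l') :
    g⁻¹ * k * g ∈ KF l :=
  (h.eventually hk).mono fun y hy => by
    rw [mul_smul, mul_smul, inv_smul_eq_iff]; exact hy

/-- identity near `[a, ∞)` -/
def Kl (a : ℝ) : Subgroup Gc := KF (𝓝ˢ (Ici a))

/-- identity near `(-∞, a]` -/
def Kr (a : ℝ) : Subgroup Gc := KF (𝓝ˢ (Iic a))

lemma mem_Kl {a : ℝ} {k : Gc} : k ∈ Kl a ↔ ∃ b < a, ∀ y, b ≤ y → k • y = y := by
  refine ⟨fun h => ?_, fun ⟨b, hb, h⟩ => ?_⟩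
  · obtain ⟨b, hb, h⟩ := hasBasis_nhdsSet_Ici_Ici a |>.eventually_iff.mp h
    exact ⟨b, hb, h⟩
  · exact hasBasis_nhdsSet_Ici_Ici a |>.eventually_iff.mpr ⟨b, hb, h⟩

lemma mem_Kr {a : ℝ} {k : Gc} : k ∈ Kr a ↔ ∃ b, a < b ∧ ∀ y, y ≤ b → k • y = y := by
  refine ⟨fun h => ?_, fun ⟨b, hb, h⟩ => ?_⟩
  · obtain ⟨b, hb, h⟩ := hasBasis_nhdsSet_Iic_Iic a |>.eventually_iff.mp h
    exact ⟨b, hb, h⟩
  · exact hasBasis_nhdsSet_Iic_Iic a |>.eventually_iff.mpr ⟨b, hb, h⟩

lemma perf_Kl (hP : S_Perf) (a : ℝ) : Kl a ≤ ⁅Kl a, Kl a⁆ := by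
  intro k hk
  obtain ⟨b, hb, h⟩ := mem_Kl.mp hk
  obtain ⟨M, hM⟩ := fn_cpt k
  have h1 : GI (-M - (a - b) / 2) (b + (a - b) / 2) ≤ Kl a := fun g hg =>
    mem_Kl.mpr ⟨b + (a - b) / 2, by linarith, fun y hy => hg y (Or.inr hy)⟩
  refine Subgroup.commutator_mono h1 h1 (hP _ _ _ (by linarith) fun y hy => ?_)
  exact hy.elim (fun hy => hM y (le_trans (by linarith) (neg_le_abs y))) (h y)

lemma perf_Kr (hP : S_Perf) (a : ℝ) : Kr a ≤ ⁅Kr a, Kr a⁆ := by
  intro k hk
  obtain ⟨b, hb, h⟩ := mem_Kr.mp hk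
  obtain ⟨M, hM⟩ := fn_cpt k
  have h1 : GI (b - (b - a) / 2) (M + (b - a) / 2) ≤ Kr a := fun g hg =>
    mem_Kr.mpr ⟨b - (b - a) / 2, by linarith, fun y hy => hg y (Or.inl hy)⟩
  refine Subgroup.commutator_mono h1 h1 (hP _ _ _ (by linarith) fun y hy => ?_)
  exact hy.elim (h y) fun hy => hM y (hy.trans (le_abs_self y))

lemma dec_Icc {a b : ℝ} (hab : a ≤ b) {k : Gc} (hk : k ∈ KF (𝓝ˢ (Icc a b))) :
    ∃ c ∈ Kr b, c⁻¹ * k ∈ Kl a := by
  have h1 := eventually_nhdsSet_iff_forall.mp hk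
  obtain ⟨g, hg⟩ := exists_cut k (h1 a ⟨le_rfl, hab⟩)
  refine ⟨k * g⁻¹, eventually_nhdsSet_iff_forall.mpr fun y hy => ?_, ?_⟩
  · have : ∀ᶠ z in 𝓝 (g⁻¹ • y), k • z = g • z := by
      rcases lt_or_ge (g⁻¹ • y) a with h2 | h2
      · exact (eventually_lt_nhds h2).mono fun z hz => by rw [hg, if_pos hz.le]
      · have h3 : g⁻¹ • y ≤ b := by
          refine (fn_mono g).le_iff_le.mp ?_
          simp only [fn, smul_inv_smul, hg b, (h1 b ⟨hab, le_rfl⟩).self_of_nhds, ite_self]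
          exact hy
        exact (h1 _ ⟨h2, h3⟩).mono fun z hz => by rw [hg, hz, ite_self]
    exact ((fn_cont g⁻¹).continuousAt.eventually this).mono fun z hz => by
      rw [mul_smul]; exact hz.trans (smul_inv_smul g z)
  · rw [mul_inv_rev, inv_inv, inv_mul_cancel_right]
    refine eventually_nhdsSet_iff_forall.mpr fun y hy => ?_
    rcases eq_or_lt_of_le (show a ≤ y from hy) with rfl | h2
    · exact (h1 _ ⟨le_rfl, hab⟩).mono fun z hz => by rw [hg, hz, ite_self]
    · exact (eventually_gt_nhds h2).mono fun z hz => by rw [hg, if_neg hz.not_ge]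

/-- real singular simplices -/
abbrev Pa (q : ℕ) : Type := C(Sx q, ℝ)

/-- identity near the image -/
def Ks {q : ℕ} (s : Pa q) : Subgroup Gc := KF (𝓝ˢ (range s))

lemma mem_Ks {q : ℕ} {s : Pa q} {k : Gc} : k ∈ Ks s ↔ ∀ t, ∀ᶠ y in 𝓝 (s t), k • y = y :=
  eventually_nhdsSet_iff_forall.trans forall_mem_range

lemma range_Icc {q : ℕ} (s : Pa q) : ∃ a b, a ≤ b ∧ range s = Icc a b := by
  have h := eq_Icc_of_connected_compact (isConnected_range s.continuous) (isCompact_range s.continuous)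
  refine ⟨_, _, ?_, h⟩
  exact nonempty_Icc.mp (h ▸ range_nonempty s)

lemma fam_Ks (hP : S_Perf) (q : ℕ) : Fam (Ks (q := q)) where
  fix s k hk := ContinuousMap.ext fun t => (mem_Ks.mp hk t).self_of_nhds
  conj g s k hk := KF_conj ((fn_cont g).tendsto_nhdsSet (by
    rintro _ ⟨t, rfl⟩; exact ⟨t, rfl⟩)) hk
  perf s k hk := by
    obtain ⟨a, b, hab, h⟩ := range_Icc s
    rw [Ks, h] at hk ⊢
    obtain ⟨c, h1, h2⟩ := dec_Icc hab hk
    have a1 : Kl a ≤ KF (𝓝ˢ (Icc a b)) := KF_mono (nhdsSet_mono Icc_subset_Ici_self)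
    have a2 : Kr b ≤ KF (𝓝ˢ (Icc a b)) := KF_mono (nhdsSet_mono Icc_subset_Iic_self)
    have := mul_mem (Subgroup.commutator_mono a2 a2 (perf_Kr hP b h1))
      (Subgroup.commutator_mono a1 a1 (perf_Kl hP a h2))
    rwa [mul_inv_cancel_left] at this

lemma range_pt (y : Pa 0) : range y = {y (vx 0)} := by
  ext x
  exact ⟨fun ⟨t, ht⟩ => by rw [← ht, Subsingleton.elim t (vx 0)]; rfl, fun h => ⟨_, h.symm⟩⟩

lemma fam_Kl (hP : S_Perf) : Fam fun y : Pa 0 => Kl (y (vx 0)) where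
  fix y k hk := ContinuousMap.ext fun t => by
    rw [Subsingleton.elim t (vx 0)]
    exact Eventually.self_of_nhdsSet hk _ self_mem_Ici
  conj g y k hk := KF_conj ((fn_cont g).tendsto_nhdsSet fun _ hx => (fn_mono g).monotone hx) hk
  perf y := perf_Kl hP _

lemma Kl_le (y : Pa 0) : Kl (y (vx 0)) ≤ Ks y :=
  KF_mono (nhdsSet_mono (by rw [range_pt]; simp))

lemma Kr_le (y : Pa 0) : Kr (y (vx 0)) ≤ Ks y :=
  KF_mono (nhdsSet_mono (by rw [range_pt]; simp))

lemma dec_pt (y : Pa 0) (k : Gc) (hk : k ∈ Ks y) : ∃ c ∈ Kr (y (vx 0)), c⁻¹ * k ∈ Kl (y (vx 0)) :=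
  dec_Icc le_rfl (by rwa [Ks, range_pt, ← Icc_self] at hk)

lemma dis_pt (a : ℝ) (k : Gc) (h : k ∈ Kr a) (h' : k ∈ Kl a) : k = 1 := by
  ext x
  rcases le_total x a with hx | hx
  · exact Eventually.self_of_nhdsSet h x hx
  · exact Eventually.self_of_nhdsSet h' x hx

lemma ev_top (g : Gc) : ∀ᶠ x in atTop, g ∈ Kl x := by
  obtain ⟨M, hM⟩ := fn_cpt g
  filter_upwards [eventually_gt_atTop M] with x hx
  exact mem_Kl.mpr ⟨M, hx, fun y hy => hM y (hy.trans (le_abs_self y))⟩

lemma ev_bot (g : Gc) : ∀ᶠ x in atBot, g ∈ Kr x := by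
  obtain ⟨M, hM⟩ := fn_cpt g
  filter_upwards [eventually_lt_atBot (-M)] with x hx
  exact mem_Kr.mpr ⟨-M, hx, fun y hy => hM y (le_trans (by linarith) (neg_le_abs y))⟩

end

end Pool.Agent.P.MP_7bb7e1_gt.D
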