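import Pool.Agent.P.MP_7bb7e1_gt.D.Cone

/-! The integrals of the Godbillon-Vey form over half lines. -/

namespace Pool.Agent.P.MP_7bb7e1_gt.D

open Filter Topology Set FreeAbelianGroup MeasureTheory
open scoped ContDiff

noncomputable section

/-- the density of the one-form -/
def om (f g : ℝ → ℝ) (x : ℝ) : ℝ := Real.log (deriv g (f x)) * (deriv (deriv f) x / deriv f x)

lemma om_congr {f g f' g' : ℝ → ℝ} {x : ℝ} (h : f =ᶠ[𝓝 x] f') (h' : g =ᶠ[𝓝 (f x)] g') :
    om f g x = om f' g' x := by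
  rw [om, om, h'.deriv_eq, h.deriv_eq, h.deriv.deriv_eq, h.eq_of_nhds]

lemma continuousAt_om {f g : ℝ → ℝ} {x : ℝ} (hf : LocDiff f x) (hg : LocDiff g (f x)) :
    ContinuousAt (om f g) x := by
  have a1 := hf.1.self_of_nhds
  have a2 : ContDiffAt ℝ 1 (deriv f) x := a1.derivWithin (WithTop.coe_le_coe.mpr le_top)
  have a3 : ContinuousAt (deriv (deriv f)) x := (a2.derivWithin (m := 0) (by simp)).continuousAt
  have a4 : ContinuousAt (deriv g) (f x) :=
    (hg.1.self_of_nhds.derivWithin (m := 0) (by simp)).continuousAt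
  exact ((a4.comp a1.continuousAt).log hg.2.ne').mul (a3.div a2.continuousAt hf.2.ne')

lemma om_eq_zero {f : Gc} (g : ℝ → ℝ) {x : ℝ} (h : ∀ᶠ y in 𝓝 x, f • y = y) : om (fn f) g x = 0 := by
  have h1 : fn f =ᶠ[𝓝 x] id := h
  have : deriv (deriv (fn f)) x = 0 := by rw [h1.deriv.deriv_eq, deriv_id']; simp
  rw [om, this, zero_div, mul_zero]

lemma integrable_om (f g : Gc) : Integrable (om (fn f) (fn g)) := by
  obtain ⟨M, hM⟩ := fn_cpt f
  refine (continuous_iff_continuousAt.mpr fun x => continuousAt_om (locDiff_fn f x)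
    (locDiff_fn g _)).integrable_of_hasCompactSupport
    (HasCompactSupport.intro (isCompact_Icc (a := -M) (b := M)) fun x hx => om_eq_zero _ ?_)
  have : M < |x| := by
    by_contra h
    exact hx (abs_le.mp (not_lt.mp h))
  exact (continuous_abs.continuousAt.eventually_const_lt this).mono fun y hy => hM y hy.le

lemma om_coc (f g h : Gc) (x : ℝ) : |deriv (fn f) x| • om (fn g) (fn h) (fn f x) =
    om (fn (g * f)) (fn h) x - om (fn f) (fn (h * g)) x + om (fn f) (fn g) x := by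
  have d : ∀ k : Gc, Differentiable ℝ (deriv (fn k)) := fun k =>
    (contDiff_infty_iff_deriv.mp (fn_smooth k)).2.differentiable (by simp)
  have e1 : deriv (fn (g * f)) = fun y => deriv (fn g) (fn f y) * deriv (fn f) y :=
    funext (deriv_mul_fn g f)
  have e2 := (((d g (fn f x)).hasDerivAt.comp x (fn_diff f x).hasDerivAt).mul
    (d f x).hasDerivAt).deriv
  have p1 := fn_pos f x
  have p2 := fn_pos g (fn f x)
  have p3 := fn_pos h (g • fn f x)
  have e3 : fn (g * f) x = g • fn f x := mul_smul _ _ _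
  have e4 : deriv (deriv (fn (g * f))) x = deriv (deriv (fn g)) (fn f x) * deriv (fn f) x *
      deriv (fn f) x + deriv (fn g) (fn f x) * deriv (deriv (fn f)) x := by
    rw [e1]; exact e2
  rw [om, om, om, om, e4, e3, deriv_mul_fn, deriv_mul_fn, Real.log_mul p3.ne' p2.ne', abs_of_pos p1,
    smul_eq_mul]
  change _ * (Real.log (deriv (fn h) (g • fn f x)) * _) = _ * (_ / (deriv (fn g) (fn f x) * _)) - _ + _
  field_simp
  ring

/-- integration over a set depending on the base point -/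
def Bs (S : ℝ → Set ℝ) : FA ((Gc × Gc) × Pa 0) →+ ℝ :=
  lift fun a => ∫ x in S (a.2 (vx 0)), om (fn a.1.1) (fn a.1.2) x

lemma Bs_of (S : ℝ → Set ℝ) (f g : Gc) (y : Pa 0) :
    Bs S (of ((f, g), y)) = ∫ x in S (y (vx 0)), om (fn f) (fn g) x := lift_apply_of _ _

lemma Bs_h3 {S : ℝ → Set ℝ} (hm : ∀ x, MeasurableSet (S x)) (hS : ∀ f x, S (f • x) = fn f '' S x)
    (z : FA ((Gc × Gc × Gc) × Pa 0)) : Bs S (h3 z) = 0 := by
  refine hom_eq ((Bs S).comp h3) 0 (fun ⟨⟨f, g, h⟩, y⟩ => ?_) z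
  simp only [AddMonoidHom.comp_apply, h3_of, map_add, map_sub, Bs_of, AddMonoidHom.zero_apply,
    ContinuousMap.smul_apply, hS]
  rw [integral_image_eq_integral_abs_deriv_smul (hm _)
    (fun x _ => (fn_diff f x).hasDerivAt.hasDerivWithinAt) (fn_mono f).injective.injOn]
  simp only [om_coc]
  rw [integral_add (f := fun x => om (fn (g * f)) (fn h) x - om (fn f) (fn (h * g)) x)
    ((integrable_om _ _).sub (integrable_om _ _)).integrableOn (integrable_om _ _).integrableOn,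
    integral_sub (integrable_om _ _).integrableOn (integrable_om _ _).integrableOn]
  ring

lemma fn_surj (f : Gc) : Function.Surjective (fn f) := MulAction.surjective f

lemma Bm_h3 (z : FA ((Gc × Gc × Gc) × Pa 0)) : Bs Iic (h3 z) = 0 :=
  Bs_h3 (fun _ => measurableSet_Iic) (fun f x =>
    (((fn_mono f).orderIsoOfSurjective _ (fn_surj f)).image_Iic x).symm) z

lemma Bt_h3 (z : FA ((Gc × Gc × Gc) × Pa 0)) : Bs (fun _ => univ) (h3 z) = 0 :=
  Bs_h3 (fun _ => MeasurableSet.univ) (fun f _ => (image_univ_of_surjective (fn_surj f)).symm) z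

lemma dvE_one {X : Type} (x : X) (s : Pa 1) :
    dvE (of (x, s)) = of (x, s.comp (incl 0)) - of (x, s.comp (incl 1)) := by
  rw [dvE_of, Fin.sum_univ_two]
  simp [sub_eq_add_neg]

lemma incl_vx {q : ℕ} (j : Fin (q + 2)) (i : Fin (q + 1)) : incl j (vx i) = vx (j.succAbove i) :=
  stdSimplex.map_vertex _ _

lemma Bm_dvE (f g : Gc) (s : Pa 1) : Bs Iic (dvE (of ((f, g), s))) =
    ∫ x in s (vx 0)..s (vx 1), om (fn f) (fn g) x := by
  rw [dvE_one, map_sub, Bs_of, Bs_of, ContinuousMap.comp_apply, ContinuousMap.comp_apply, incl_vx,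
    incl_vx]
  exact intervalIntegral.integral_Iic_sub_Iic (integrable_om _ _).integrableOn
    (integrable_om _ _).integrableOn

lemma Bt_dvE (z : FA ((Gc × Gc) × Pa 1)) : Bs (fun _ => univ) (dvE z) = 0 := by
  refine hom_eq ((Bs fun _ => univ).comp dvE) 0 (fun ⟨⟨f, g⟩, s⟩ => ?_) z
  rw [AddMonoidHom.comp_apply, dvE_one, map_sub, Bs_of, Bs_of, sub_self, AddMonoidHom.zero_apply]

/-- the Bott-Thurston cocycle on chains -/
def BT : FA (Gc × Gc) →+ ℝ := lift fun a => bt a.2 a.1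

lemma Bt_at (y : Pa 0) (z : FA (Gc × Gc)) : Bs (fun _ => univ) (at_ y z) = BT z := by
  refine hom_eq ((Bs fun _ => univ).comp (at_ y)) BT (fun ⟨f, g⟩ => ?_) z
  rw [AddMonoidHom.comp_apply, at_of, Bs_of, BT, lift_apply_of, Measure.restrict_univ]
  rfl

lemma Bm_l {k : FA ((Gc × Gc) × Pa 0)} (hk : k ∈ Zc fun y : Pa 0 => Kl (y (vx 0))) :
    Bs Iic k = Bs (fun _ => univ) k := by
  refine AddMonoidHom.eqOn_closure ?_ hk
  rintro _ ⟨y, z, hz, -, rfl⟩
  refine C2_eq ((Bs Iic).comp (at_ y)) ((Bs fun _ => univ).comp (at_ y)) (fun k hk k' _ => ?_) hz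
  simp only [AddMonoidHom.comp_apply, at_of, Bs_of, Measure.restrict_univ]
  refine setIntegral_eq_integral_of_forall_compl_eq_zero fun x hx => om_eq_zero _ ?_
  exact eventually_nhdsSet_iff_forall.mp hk x (show y (vx 0) ≤ x from (not_le.mp hx).le)

lemma Bm_r {k : FA ((Gc × Gc) × Pa 0)} (hk : k ∈ Zc fun y : Pa 0 => Kr (y (vx 0))) :
    Bs Iic k = 0 := by
  refine AddMonoidHom.eqOn_closure (g := 0) ?_ hk
  rintro _ ⟨y, z, hz, -, rfl⟩
  refine C2_eq ((Bs Iic).comp (at_ y)) 0 (fun k hk k' _ => ?_) hz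
  simp only [AddMonoidHom.comp_apply, at_of, Bs_of, AddMonoidHom.zero_apply]
  exact setIntegral_eq_zero_of_forall_eq_zero fun x hx =>
    om_eq_zero _ (eventually_nhdsSet_iff_forall.mp hk x hx)

/-! ### killing the local cycles -/

/-- the Bott-Thurston cocycle detects boundaries -/
def S_Inj : Prop := ∀ z : FA (Gc × Gc), b2 z = 0 → BT z = 0 → ∃ w, b3 w = z

/-- the Bott-Thurston cocycle takes all values -/
def S_Surj : Prop := ∀ r : ℝ, ∃ z : FA (Gc × Gc), b2 z = 0 ∧ BT z = r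

/-- relative boundaries -/
def Wr : AddSubgroup (FA ((Gc × Gc) × Pa 0)) :=
  (Pr v3).ker.map h3 ⊔ ((Pr (q := 1) v2).ker ⊓ h2.ker).map dvE

lemma h2_at {q : ℕ} (s : Pa q) {z : FA (Gc × Gc)} (hz : z ∈ C2 (Ks s)) :
    h2 (at_ s z) = at_ s (b2 z) := by
  refine C2_eq (h2.comp (at_ s)) ((at_ s).comp b2) (fun k hk k' _ => ?_) hz
  have : k • s = s := ContinuousMap.ext fun t => (mem_Ks.mp hk t).self_of_nhds
  simp only [AddMonoidHom.comp_apply, at_of, h2_of, b2_of, map_add, map_sub, this]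

lemma C2_mono {K K' : Subgroup Gc} (h : K ≤ K') : C2 K ≤ C2 K' :=
  AddSubgroup.closure_mono (by rintro _ ⟨k, hk, k', hk', rfl⟩; exact ⟨k, h hk, k', h hk', rfl⟩)

lemma kp_at {X : Type} {q : ℕ} (x : ℝ) (y : Pa q) (z : FA X) :
    kp x (at_ y z) = at_ (cone x y) z :=
  hom_eq ((kp x).comp (at_ y)) (at_ (cone x y)) (fun _ => rfl) z

lemma mv_at {X : Type} (x : ℝ) (y : Pa 0) (z : FA X) : mv x (at_ y z) = at_ (pt x) z :=
  hom_eq ((mv x).comp (at_ y)) (at_ (pt x)) (fun _ => rfl) z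

lemma kill (hI : S_Inj) {K : Pa 0 → Subgroup Gc} {l : Filter ℝ} [l.NeBot]
    (H1 : ∀ y, ∀ᶠ x in l, K y ≤ Ks (cone x y)) (H2 : ∀ g : Gc, ∀ᶠ x in l, g ∈ Ks (pt x))
    {k : FA ((Gc × Gc) × Pa 0)} (hk : k ∈ Zc K) (h0 : Bs (fun _ => univ) k = 0) : k ∈ Wr := by
  have A : ∃ z, b2 z = 0 ∧ Bs (fun _ => univ) k = BT z ∧ ∀ᶠ x in l, k - at_ (pt x) z ∈ Wr := by
    clear h0
    induction hk using AddSubgroup.closure_induction with
    | mem k hk =>
      obtain ⟨y, z, hz, h0, rfl⟩ := hk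
      refine ⟨z, h0, Bt_at y z, (H1 y).mono fun x hx => AddSubgroup.mem_sup_right
        ⟨at_ (cone x y) z, ⟨map_at inv2_pr (C2_mono hx hz) h0, ?_⟩, ?_⟩⟩
      · exact (h2_at _ (C2_mono hx hz)).trans (by rw [h0, map_zero])
      · rw [← kp_at, dvE_kp0, mv_at]
    | zero => exact ⟨0, map_zero _, by simp, .of_forall fun x => by simp⟩
    | add k k' _ _ ih ih' =>
      obtain ⟨z, a1, a2, a3⟩ := ih
      obtain ⟨z', b1, b2, b3⟩ := ih'
      refine ⟨z + z', by rw [map_add, a1, b1, add_zero], by rw [map_add, map_add, a2, b2],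
        (a3.and b3).mono fun x hx => ?_⟩
      rw [map_add, add_sub_add_comm]
      exact add_mem hx.1 hx.2
    | neg k _ ih =>
      obtain ⟨z, a1, a2, a3⟩ := ih
      refine ⟨-z, by rw [map_neg, a1, neg_zero], by rw [map_neg, map_neg, a2],
        a3.mono fun x hx => ?_⟩
      rw [map_neg, ← neg_sub']
      exact neg_mem hx
  obtain ⟨z, a1, a2, a3⟩ := A
  obtain ⟨w, rfl⟩ := hI z a1 (a2 ▸ h0)
  have e1 := ev_eq (l := l) (fun x => h3.comp (at_ (pt x))) (fun x => (at_ (pt x)).comp b3) (by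
    rintro ⟨f, g, h⟩
    filter_upwards [H2 f] with x hx
    have : f • pt x = pt x := ContinuousMap.ext fun t => (mem_Ks.mp hx t).self_of_nhds
    simp only [AddMonoidHom.comp_apply, at_of, h3_of, b3_of, map_add, map_sub, this]) w
  have e2 := ev_eq (l := l) (fun x => (Pr v3).comp (at_ (pt x)))
    (fun x => (zmultiplesHom _ (of (pr v3 ((1, 1, 1), pt x)))).comp eps) (by
    rintro ⟨f, g, h⟩
    filter_upwards [H2 f, H2 g, H2 h] with x h1 h2 h3
    have := inv3_pr 1 1 1 (pt x) f h1 g (by simpa using h2) h (by simpa using h3)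
    simp only [one_mul] at this
    simp [at_of, eps, this]) w
  obtain ⟨x, a3, e1, e2⟩ := (a3.and (e1.and e2)).exists
  simp only [AddMonoidHom.comp_apply, zmultiplesHom_apply] at e1 e2
  have : at_ (pt x) (b3 w) ∈ Wr := AddSubgroup.mem_sup_left
    ⟨at_ (pt x) w - eps w • of ((1, 1, 1), pt x), by
      rw [SetLike.mem_coe, AddMonoidHom.mem_ker, map_sub, e2, map_zsmul, map_of_apply, sub_self],
      by rw [map_sub, e1, map_zsmul, h3_of]; simp⟩
  simpa using add_mem a3 this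

lemma cone_pt_apply (x : ℝ) (y : Pa 0) (t : Sx 1) :
    cone x y t = x + (1 - t 0) * (y (vx 0) - x) := by
  rw [← Subsingleton.elim (rad t) (vx 0)]
  rfl

lemma kill_l (hI : S_Inj) {k : FA ((Gc × Gc) × Pa 0)} (hk : k ∈ Zc fun y : Pa 0 => Kl (y (vx 0)))
    (h0 : Bs (fun _ => univ) k = 0) : k ∈ Wr := by
  refine kill hI (l := atTop) (fun y => ?_) (fun g => (ev_top g).mono fun x hx => Kl_le (pt x) hx)
    hk h0
  filter_upwards [eventually_ge_atTop (y (vx 0))] with x hx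
  refine KF_mono (nhdsSet_mono ?_)
  rintro _ ⟨t, rfl⟩
  rw [cone_pt_apply, mem_Ici]
  nlinarith [stdSimplex.zero_le t 0]

lemma kill_r (hI : S_Inj) {k : FA ((Gc × Gc) × Pa 0)} (hk : k ∈ Zc fun y : Pa 0 => Kr (y (vx 0)))
    (h0 : Bs (fun _ => univ) k = 0) : k ∈ Wr := by
  refine kill hI (l := atBot) (fun y => ?_) (fun g => (ev_bot g).mono fun x hx => Kr_le (pt x) hx)
    hk h0
  filter_upwards [eventually_le_atBot (y (vx 0))] with x hx
  refine KF_mono (nhdsSet_mono ?_)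
  rintro _ ⟨t, rfl⟩
  rw [cone_pt_apply, mem_Iic]
  nlinarith [stdSimplex.zero_le t 0]

/-- a cycle that lifts to the action groupoid and has vanishing invariant is a boundary -/
theorem isBdry_of_lift (hP : S_Perf) (hI : S_Inj) (a : FA ((Gc × Gc × Gc) × Pa 0))
    (b : FA ((Gc × Gc) × Pa 1)) (c : FA (Gc × Pa 2)) (d : FA (Unit × Pa 3))
    (hz : IsCycle (Pr v3 a, Pr v2 b, Pr v1 c, Pr v0 d)) (h0 : Bs Iic (dvE b) = 0)
    (hJ : ∀ ρ, Pr v2 ρ = 0 → Bs Iic (dvE ρ) = 0) :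
    IsBdry (Pr v3 a, Pr v2 b, Pr v1 c, Pr v0 d) := by
  obtain ⟨z1, z2, z3⟩ := hz
  simp only [← Pr_dvE, ← Pr_h1, ← Pr_h2, ← Pr_h3, ← map_add, ← map_sub] at z1 z2 z3
  have c3 := Pr_v0_inj z3
  obtain ⟨ρ, r1, r2⟩ := rel1 (fam_Ks hP 1) fib1 inv2_pr z2
  have c2 : h2 (b - ρ) - dvE c = 0 := by rw [map_sub, r2]; abel
  have hdd : ∀ c : FA (Gc × Pa 2), dvE (dvE c) = 0 := fun c => by
    refine hom_eq (dvE.comp dvE) 0 (fun ⟨f, s⟩ => ?_) c
    have e (i : Fin 3) (j : Fin 2) (i' : Fin 3) (j' : Fin 2)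
        (h : i.succAbove (j.succAbove 0) = i'.succAbove (j'.succAbove 0)) :
        (s.comp (incl i)).comp (incl j) = (s.comp (incl i')).comp (incl j') := by
      ext t
      rw [Subsingleton.elim t (vx 0)]
      simp only [ContinuousMap.comp_apply, incl_vx, h]
    rw [AddMonoidHom.comp_apply, dvE_of, Fin.sum_univ_three]
    simp only [map_add, map_zsmul, dvE_one]
    rw [e 0 0 1 0 rfl, e 0 1 2 0 rfl, e 1 1 2 1 rfl]
    simp
  obtain ⟨σ, s1, km, hm, kq, hq, e⟩ := rel2 (π3 := pr v3) (fam_Ks hP 0) (fam_Kl hP)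
    (fun y => perf_Kr hP _) Kl_le Kr_le dec_pt (fun y => dis_pt _) fib2 inv3_pr
    (r := h3 a + dvE (b - ρ))
    (by rw [map_sub, ← add_sub_assoc, map_sub, z1, Pr_dvE, r1, map_zero, sub_zero])
    (by rw [map_add, h2_h3, h2_dvE, sub_eq_zero.mp c2, hdd, add_zero])
  have m1 := congrArg (Bs Iic) e
  have m2 := congrArg (Bs fun _ => univ) e
  simp only [map_add, map_sub, Bm_h3, Bt_h3, Bt_dvE, h0, hJ ρ r1, Bm_l hm, Bm_r hq] at m1 m2
  obtain ⟨_, ⟨τ, t1, rfl⟩, _, ⟨τ', ⟨t2, t3⟩, rfl⟩, e'⟩ := AddSubgroup.mem_sup.mp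
    (add_mem (kill_l hI hm (by linarith)) (kill_r hI hq (by linarith)))
  have := isBdry_of_cycle (a - σ - τ) (b - ρ - τ') c d
    (by rw [map_sub, map_sub, map_sub dvE, ← sub_eq_zero.mpr (e.trans (congrArg _ e'.symm))]; abel)
    (by rw [map_sub, AddMonoidHom.mem_ker.mp t3, sub_zero, c2]) c3
  rwa [map_sub, map_sub, s1, AddMonoidHom.mem_ker.mp t1, map_sub, map_sub, r1,
    AddMonoidHom.mem_ker.mp t2, sub_zero, sub_zero, sub_zero, sub_zero] at this

end

end Pool.Agent.P.MP_7bb7e1_gt.D
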