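import Pool.Agent.P.MP_7bb7e1_gt.D.Gp

/-! The action groupoid and the nerve. -/

namespace Pool.Agent.P.MP_7bb7e1_gt.D

open Filter Topology Set FreeAbelianGroup

noncomputable section

lemma germ_eq_iff {f g : ℝ → ℝ} {x y : ℝ} : germ f x = germ g y ↔ x = y ∧ f =ᶠ[𝓝 x] g := by
  constructor
  · intro h
    obtain rfl : x = y := congrArg Sigma.fst h
    exact ⟨rfl, Germ.coe_eq.mp (eq_of_heq (Sigma.mk.inj h).2)⟩
  · rintro ⟨rfl, h⟩
    exact congrArg (Sigma.mk x) (Germ.coe_eq.mpr h)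

lemma continuous_germ (f : ℝ → ℝ) : Continuous (germ f) := by
  refine continuous_generateFrom_iff.mpr ?_
  rintro _ ⟨g, U, hU, rfl⟩
  refine isOpen_iff_mem_nhds.mpr ?_
  rintro x ⟨y, hy, h⟩
  obtain ⟨rfl, h'⟩ := germ_eq_iff.mp h
  filter_upwards [hU.mem_nhds hy, h'.eventuallyEq_nhds] with z h1 h2
  exact ⟨z, h1, germ_eq_iff.mpr ⟨rfl, h2⟩⟩

lemma isOpen_germ (f : ℝ → ℝ) {U : Set ℝ} (hU : IsOpen U) : IsOpen (germ f '' U) :=
  TopologicalSpace.isOpen_generateFrom_of_mem ⟨f, U, hU, rfl⟩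

lemma continuous_base : Continuous fun γ : Et => γ.1 := by
  refine continuous_def.mpr fun U hU => ?_
  have : (fun γ : Et => γ.1) ⁻¹' U = ⋃ f, germ f '' U := by
    ext ⟨x, φ⟩
    refine ⟨fun h => ?_, fun h => ?_⟩
    · induction φ using Germ.inductionOn with
      | h f => exact mem_iUnion.mpr ⟨f, x, h, rfl⟩
    · obtain ⟨f, y, hy, h⟩ := mem_iUnion.mp h
      obtain rfl : y = x := congrArg Sigma.fst h
      exact hy
  rw [this]
  exact isOpen_iUnion fun f => isOpen_germ f hU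

variable {p q : ℕ}

/-- the section of the nerve given by a tuple of diffeomorphisms -/
def sec (F : Fin (p + 1) → Gc) : C(ℝ, Nv p) where
  toFun x := ⟨fun i j => germ (fn (F j * (F i)⁻¹)) (F i • x), fun i j k =>
    ⟨F i • x, fn (F j * (F i)⁻¹), fn (F k * (F j)⁻¹), locDiff_fn _ _, locDiff_fn _ _, rfl,
      by simp [fn, mul_smul], by rw [← fn_mul]; simp [mul_assoc]⟩⟩
  continuous_toFun := by
    refine Continuous.subtype_mk (continuous_pi fun i => continuous_pi fun j => ?_) _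
    exact (continuous_germ _).comp (fn_cont _)

lemma face_sec (F : Fin (p + 2) → Gc) (i : Fin (p + 2)) (s : Pa q) :
    (face i).comp ((sec F).comp s) = (sec fun j => F (i.succAbove j)).comp s := rfl

lemma sec_mul (F : Fin (p + 1) → Gc) (h : Gc) (s : Pa q) :
    (sec fun i => F i * h).comp s = (sec F).comp (h • s) := by
  ext t i j
  simp [sec, mul_smul, mul_assoc]

lemma sec_congr {F F' : Fin (p + 1) → Gc} {x : ℝ} (h : ∀ i, fn (F i) =ᶠ[𝓝 x] fn (F' i)) :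
    sec F x = sec F' x := by
  ext i j
  refine germ_eq_iff.mpr ⟨(h i).eq_of_nhds, ?_⟩
  have : Tendsto (fn (F i)⁻¹) (𝓝 (F i • x)) (𝓝 x) := by
    simpa [fn] using (fn_cont (F i)⁻¹).tendsto (F i • x)
  filter_upwards [this.eventually (h i), this.eventually (h j)] with y h1 h2
  simp only [fn, smul_inv_smul] at h1 h2
  simp only [fn, mul_smul, h2]
  rw [eq_inv_smul_iff.mpr h1.symm]

lemma sec_inj {F F' : Fin (p + 1) → Gc} (h0 : F 0 = 1) (h0' : F' 0 = 1) {x x' : ℝ}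
    (h : sec F x = sec F' x') : x = x' ∧ ∀ i, fn (F i) =ᶠ[𝓝 x] fn (F' i) := by
  have := fun j => germ_eq_iff.mp (congrFun (congrFun (congrArg Subtype.val h) 0) j)
  simp only [h0, h0', one_smul, inv_one, mul_one] at this
  exact ⟨(this 0).1, fun i => (this i).2⟩

lemma eq_sec {γ : Nv p} {F : Fin (p + 1) → Gc} {x : ℝ} (h : ∀ j, γ.1 0 j = germ (fn (F j)) x) :
    γ = sec F x := by
  ext i j
  obtain ⟨y, f, g, -, -, h1, h2, h3⟩ := γ.2 0 i j
  obtain ⟨rfl, a1⟩ := germ_eq_iff.mp ((h i).symm.trans h1)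
  obtain ⟨-, a2⟩ := germ_eq_iff.mp ((h j).symm.trans h3)
  rw [h2, ← a1.eq_of_nhds]
  refine germ_eq_iff.mpr ⟨rfl, ?_⟩
  have : Tendsto (fn (F i)⁻¹) (𝓝 (fn (F i) x)) (𝓝 x) := by
    simpa [fn] using (fn_cont (F i)⁻¹).tendsto (F i • x)
  filter_upwards [this.eventually a1, this.eventually a2] with z b1 b2
  simp only [fn, smul_inv_smul, Function.comp_apply] at b1 b2
  simp only [fn, mul_smul, b2, ← b1]

lemma base_eq (γ : Nv p) (j : Fin (p + 1)) : (γ.1 0 j).1 = (γ.1 0 0).1 := by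
  obtain ⟨y, f, g, -, -, h1, -, h3⟩ := γ.2 0 0 j
  rw [h1, h3]
  rfl

/-- the domain of a chart -/
def Uc (F : Fin (p + 1) → Gc) : Set (Nv p) := {γ | ∀ j, γ.1 0 j ∈ germ (fn (F j)) '' univ}

lemma isOpen_Uc (F : Fin (p + 1) → Gc) : IsOpen (Uc F) := by
  rw [Uc, ofPred_forall]
  exact isOpen_iInter_of_finite fun j => (isOpen_germ _ isOpen_univ).preimage
    ((continuous_apply_apply 0 j).comp continuous_subtype_val)

lemma exists_Uc (hA : S_Aff) (γ : Nv p) : ∃ F : Fin (p + 1) → Gc, F 0 = 1 ∧ γ ∈ Uc F := by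
  have : ∀ j, ∃ g : Gc, γ.1 0 j = germ (fn g) (γ.1 0 0).1 := fun j => by
    obtain ⟨y, f, g, h0, -, h1, -, -⟩ := γ.2 0 j j
    obtain ⟨g, hg⟩ := exists_ext hA h0
    refine ⟨g, ?_⟩
    rw [← base_eq γ j, h1]
    exact germ_eq_iff.mpr ⟨rfl, hg.symm⟩
  choose F hF using this
  refine ⟨fun j => F j * (F 0)⁻¹, mul_inv_cancel _, fun j => ⟨F 0 • (γ.1 0 0).1, trivial, ?_⟩⟩
  exact (congrFun (congrFun (congrArg Subtype.val (eq_sec hF)) 0) j).symm

/-- the projection of a simplex of the action groupoid -/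
def pr {X : Type} (v : X → Fin (p + 1) → Gc) (a : X × Pa q) : C(Sx q, Nv p) :=
  (sec (v a.1)).comp a.2

/-- the projection of a chain -/
abbrev Pr {X : Type} (v : X → Fin (p + 1) → Gc) : FA (X × Pa q) →+ Ch p q :=
  FreeAbelianGroup.map (pr v)

lemma Sm_le {X : Type} (v : X → Fin (p + 1) → Gc) : Sm (fun x => Uc (v x)) q ≤ (Pr v).range := by
  refine (AddSubgroup.closure_le _).mpr ?_
  rintro _ ⟨τ, x, h, rfl⟩
  refine ⟨of (x, ⟨fun t => ((τ t).1 0 0).1, continuous_base.comp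
    (((continuous_apply_apply 0 0).comp continuous_subtype_val).comp τ.continuous)⟩), ?_⟩
  refine congrArg of (ContinuousMap.ext fun t => (eq_sec fun j => ?_).symm)
  obtain ⟨y, -, hy⟩ := h t j
  change _ = germ _ ((τ t).1 0 0).1
  rw [← base_eq (τ t) j, ← hy]
  rfl

def v0 (_ : Unit) : Fin 1 → Gc := ![1]
def v1 (f : Gc) : Fin 2 → Gc := ![1, f]
def v2 (a : Gc × Gc) : Fin 3 → Gc := ![1, a.1, a.2 * a.1]
def v3 (a : Gc × Gc × Gc) : Fin 4 → Gc := ![1, a.1, a.2.1 * a.1, a.2.2 * a.2.1 * a.1]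

lemma cov0 (hA : S_Aff) (γ : Nv 0) : ∃ x, γ ∈ Uc (v0 x) := by
  obtain ⟨F, h, h'⟩ := exists_Uc hA γ
  refine ⟨(), ?_⟩
  rwa [show v0 () = F by ext1 i; fin_cases i; exact h.symm]

lemma cov1 (hA : S_Aff) (γ : Nv 1) : ∃ x, γ ∈ Uc (v1 x) := by
  obtain ⟨F, h, h'⟩ := exists_Uc hA γ
  refine ⟨F 1, ?_⟩
  rwa [show v1 (F 1) = F by ext1 i; fin_cases i <;> simp [v1, h]]

lemma cov2 (hA : S_Aff) (γ : Nv 2) : ∃ x, γ ∈ Uc (v2 x) := by
  obtain ⟨F, h, h'⟩ := exists_Uc hA γ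
  refine ⟨(F 1, F 2 * (F 1)⁻¹), ?_⟩
  rwa [show v2 (F 1, F 2 * (F 1)⁻¹) = F by ext1 i; fin_cases i <;> simp [v2, h]]

lemma cov3 (hA : S_Aff) (γ : Nv 3) : ∃ x, γ ∈ Uc (v3 x) := by
  obtain ⟨F, h, h'⟩ := exists_Uc hA γ
  refine ⟨(F 1, F 2 * (F 1)⁻¹, F 3 * (F 2)⁻¹), ?_⟩
  rwa [show v3 (F 1, F 2 * (F 1)⁻¹, F 3 * (F 2)⁻¹) = F by
    ext1 i; fin_cases i <;> simp [v3, h, mul_assoc]]

lemma range_v0 (hA : S_Aff) (z : Ch 0 q) : z ∈ (Pr v0).range := by
  refine Sm_le v0 ?_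
  have : ∀ᶠ _ : ℕ in atTop, AddMonoidHom.id _ z ∈ Sm (fun x => Uc (v0 x)) q :=
    ev_mem (fun _ => AddMonoidHom.id _) _ (fun σ => .of_forall fun _ =>
      AddSubgroup.subset_closure (by
        exact ⟨σ, (), fun t => (cov0 hA (σ t)).choose_spec, rfl⟩)) z
  exact this.exists.choose_spec

lemma Pr_v0_inj {z : FA (Unit × Pa q)} (h : Pr v0 z = 0) : z = 0 :=
  lift_eq_zero (pr v0) (AddMonoidHom.id _) (fun ⟨_, s⟩ ⟨_, s'⟩ h => by
    obtain rfl : s = s' := ContinuousMap.ext fun t => (sec_inj rfl rfl (DFunLike.congr_fun h t)).1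
    rfl) h

/-! ### chain maps -/

/-- the singular boundary upstairs -/
def dvE {X : Type} : FA (X × Pa (q + 1)) →+ FA (X × Pa q) :=
  lift fun a => ∑ j : Fin (q + 2), (-1 : ℤ) ^ j.1 • of (a.1, a.2.comp (incl j))

lemma dvE_of {X : Type} (x : X) (s : Pa (q + 1)) :
    dvE (of (x, s)) = ∑ j : Fin (q + 2), (-1 : ℤ) ^ j.1 • of (x, s.comp (incl j)) :=
  lift_apply_of _ _

lemma Pr_dvE {X : Type} (v : X → Fin (p + 1) → Gc) (z : FA (X × Pa (q + 1))) :
    Pr v (dvE z) = dv (Pr v z) := by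
  refine hom_eq ((Pr v).comp dvE) (dv.comp (Pr v)) (fun ⟨x, s⟩ => ?_) z
  simp only [AddMonoidHom.comp_apply, dvE_of, map_sum, map_zsmul, map_of_apply, dv_of]
  rfl

lemma dh_of (σ : C(Sx q, Nv (p + 1))) :
    dh (of σ) = ∑ i : Fin (p + 2), (-1 : ℤ) ^ i.1 • of ((face i).comp σ) := lift_apply_of _ _

lemma Pr_h1 (z : FA (Gc × Pa q)) : Pr v0 (h1 z) = dh (Pr v1 z) := by
  refine hom_eq ((Pr v0).comp h1) (dh.comp (Pr v1)) (fun ⟨f, s⟩ => ?_) z
  have e0 : (fun j => v1 f ((0 : Fin 2).succAbove j)) = fun j => v0 () j * f := by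
    ext1 j; fin_cases j; simp [v0, v1]
  have e1 : (fun j => v1 f ((1 : Fin 2).succAbove j)) = v0 () := by
    ext1 j; fin_cases j; rfl
  simp only [AddMonoidHom.comp_apply, h1_of, map_sub, map_of_apply, dh_of, pr, face_sec]
  rw [Fin.sum_univ_two, e0, e1, sec_mul]
  simp [sub_eq_add_neg]

lemma Pr_h2 (z : FA ((Gc × Gc) × Pa q)) : Pr v1 (h2 z) = dh (Pr v2 z) := by
  refine hom_eq ((Pr v1).comp h2) (dh.comp (Pr v2)) (fun ⟨⟨f, g⟩, s⟩ => ?_) z
  have e0 : (fun j => v2 (f, g) ((0 : Fin 3).succAbove j)) = fun j => v1 g j * f := by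
    ext1 j; fin_cases j <;> simp [v1, v2]
  have e1 : (fun j => v2 (f, g) ((1 : Fin 3).succAbove j)) = v1 (g * f) := by
    ext1 j; fin_cases j <;> rfl
  have e2 : (fun j => v2 (f, g) ((2 : Fin 3).succAbove j)) = v1 f := by
    ext1 j; fin_cases j <;> rfl
  simp only [AddMonoidHom.comp_apply, h2_of, map_sub, map_add, map_of_apply, dh_of, pr, face_sec]
  rw [Fin.sum_univ_three, e0, e1, e2, sec_mul]
  simp [sub_eq_add_neg]

lemma Pr_h3 (z : FA ((Gc × Gc × Gc) × Pa q)) : Pr v2 (h3 z) = dh (Pr v3 z) := by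
  refine hom_eq ((Pr v2).comp h3) (dh.comp (Pr v3)) (fun ⟨⟨f, g, h⟩, s⟩ => ?_) z
  have e0 : (fun j => v3 (f, g, h) ((0 : Fin 4).succAbove j)) = fun j => v2 (g, h) j * f := by
    ext1 j; fin_cases j <;> simp [v2, v3]
  have e1 : (fun j => v3 (f, g, h) ((1 : Fin 4).succAbove j)) = v2 (g * f, h) := by
    ext1 j; fin_cases j
    exacts [rfl, rfl, mul_assoc _ _ _]
  have e2 : (fun j => v3 (f, g, h) ((2 : Fin 4).succAbove j)) = v2 (f, h * g) := by
    ext1 j; fin_cases j <;> rfl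
  have e3 : (fun j => v3 (f, g, h) ((3 : Fin 4).succAbove j)) = v2 (f, g) := by
    ext1 j; fin_cases j <;> rfl
  have h3 : (-1 : ℤ) ^ (3 : Fin 4).1 = -1 := by decide
  simp only [AddMonoidHom.comp_apply, h3_of, map_sub, map_add, map_of_apply, dh_of, pr, face_sec]
  rw [Fin.sum_univ_four, e0, e1, e2, e3, sec_mul, h3]
  simp [sub_eq_add_neg]

lemma h1_dvE (z : FA (Gc × Pa (q + 1))) : h1 (dvE z) = dvE (h1 z) := by
  refine hom_eq (h1.comp dvE) (dvE.comp h1) (fun ⟨f, s⟩ => ?_) z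
  simp only [AddMonoidHom.comp_apply, dvE_of, map_sum, map_zsmul, h1_of, map_sub, smul_sub,
    Finset.sum_sub_distrib]
  rfl

lemma h2_dvE (z : FA ((Gc × Gc) × Pa (q + 1))) : h2 (dvE z) = dvE (h2 z) := by
  refine hom_eq (h2.comp dvE) (dvE.comp h2) (fun ⟨⟨f, g⟩, s⟩ => ?_) z
  simp only [AddMonoidHom.comp_apply, dvE_of, map_sum, map_zsmul, h2_of, map_sub, map_add, smul_sub,
    smul_add, Finset.sum_sub_distrib, Finset.sum_add_distrib]
  rfl

lemma h3_dvE (z : FA ((Gc × Gc × Gc) × Pa (q + 1))) : h3 (dvE z) = dvE (h3 z) := by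
  refine hom_eq (h3.comp dvE) (dvE.comp h3) (fun ⟨⟨f, g, h⟩, s⟩ => ?_) z
  simp only [AddMonoidHom.comp_apply, dvE_of, map_sum, map_zsmul, h3_of, map_sub, map_add, smul_sub,
    smul_add, Finset.sum_sub_distrib, Finset.sum_add_distrib]
  rfl

/-! ### fibres -/

lemma ev_comp {k : Gc} (f : Gc) {x : ℝ} (h : ∀ᶠ y in 𝓝 (f • x), k • y = y) :
    ∀ᶠ y in 𝓝 x, k • f • y = f • y := ((fn_cont f).tendsto x).eventually h

lemma inv2_pr : Inv2 Ks fun f g (s : Pa q) => pr v2 ((f, g), s) := by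
  intro f g s k hk k' hk'
  refine ContinuousMap.ext fun t => sec_congr fun i => ?_
  filter_upwards [mem_Ks.mp hk t, ev_comp f (mem_Ks.mp hk' t)] with y a1 a2
  fin_cases i <;> simp [v2, fn, mul_smul, a1, a2]

lemma inv3_pr : Inv3 Ks fun f g h (s : Pa q) => pr v3 ((f, g, h), s) := by
  intro f g h s k hk k' hk' k'' hk''
  refine ContinuousMap.ext fun t => sec_congr fun i => ?_
  filter_upwards [mem_Ks.mp hk t, ev_comp f (mem_Ks.mp hk' t),
    ((fn_cont f).tendsto _).eventually (ev_comp g (mem_Ks.mp hk'' t))] with y a1 a2 a3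
  simp only [fn] at a3
  fin_cases i <;> simp [v3, fn, mul_smul, a1, a2, a3]

lemma fib1 (f f' : Gc) (s s' : Pa q) (h : pr v1 (f, s) = pr v1 (f', s')) :
    s = s' ∧ f⁻¹ * f' ∈ Ks s := by
  have := fun t => sec_inj rfl rfl (DFunLike.congr_fun h t)
  refine ⟨ContinuousMap.ext fun t => (this t).1, mem_Ks.mpr fun t => ?_⟩
  filter_upwards [(this t).2 1] with y hy
  rw [mul_smul, inv_smul_eq_iff]
  exact hy.symm

lemma fib2 (f g f' g' : Gc) (s s' : Pa q) (h : pr v2 ((f, g), s) = pr v2 ((f', g'), s')) :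
    s = s' ∧ f⁻¹ * f' ∈ Ks s ∧ g⁻¹ * g' ∈ Ks (f • s) := by
  have := fun t => sec_inj rfl rfl (DFunLike.congr_fun h t)
  refine ⟨ContinuousMap.ext fun t => (this t).1, mem_Ks.mpr fun t => ?_, mem_Ks.mpr fun t => ?_⟩
  · filter_upwards [(this t).2 1] with y hy
    rw [mul_smul, inv_smul_eq_iff]
    exact hy.symm
  · have a : Tendsto (fn f⁻¹) (𝓝 ((f • s) t)) (𝓝 (s t)) := by
      simpa [fn] using (fn_cont f⁻¹).tendsto (f • s t)
    filter_upwards [a.eventually ((this t).2 1), a.eventually ((this t).2 2)] with y a1 a2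
    change f • f⁻¹ • y = f' • f⁻¹ • y at a1
    change (g * f) • f⁻¹ • y = (g' * f') • f⁻¹ • y at a2
    rw [mul_smul, mul_smul, ← a1, smul_inv_smul] at a2
    rw [mul_smul, inv_smul_eq_iff]
    exact a2.symm

end

end Pool.Agent.P.MP_7bb7e1_gt.D
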