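import Mathlib

/-!
The third homology group of the classifying space of the groupoid of germs of orientation
preserving smooth local diffeomorphisms of the line, and the Godbillon-Vey class.
-/

namespace Pool.Agent.P.MP_7bb7e1_gt.D

open Filter Topology
open scoped ContDiff

noncomputable section

/-- `f` is an orientation preserving smooth local diffeomorphism near `x` -/
def LocDiff (f : ℝ → ℝ) (x : ℝ) : Prop :=
  (∀ᶠ y in 𝓝 x, ContDiffAt ℝ ∞ f y) ∧ 0 < deriv f x

/-- germs of real functions at points of the line -/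
def Et : Type := Σ x : ℝ, Germ (𝓝 x) ℝ

/-- the germ of `f` at `x` -/
def germ (f : ℝ → ℝ) (x : ℝ) : Et := ⟨x, (f : Germ (𝓝 x) ℝ)⟩

/-- the sheaf topology -/
instance : TopologicalSpace Et :=
  .generateFrom {s | ∃ (f : ℝ → ℝ) (U : Set ℝ), IsOpen U ∧ s = germ f '' U}

/-- the nerve: families of germs `γ i j` of local diffeomorphisms with `γ j k ∘ γ i j = γ i k` -/
abbrev Nv (p : ℕ) : Type :=
  {γ : Fin (p + 1) → Fin (p + 1) → Et // ∀ i j k, ∃ x f g, LocDiff f x ∧ LocDiff g (f x) ∧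
    γ i j = germ f x ∧ γ j k = germ g (f x) ∧ γ i k = germ (g ∘ f) x}

/-- the face maps of the nerve -/
def face {p : ℕ} (i : Fin (p + 2)) : C(Nv (p + 1), Nv p) where
  toFun γ := ⟨fun a b => γ.1 (i.succAbove a) (i.succAbove b), fun _ _ _ => γ.2 _ _ _⟩
  continuous_toFun := by
    refine Continuous.subtype_mk (continuous_pi fun a => continuous_pi fun b => ?_) _
    exact (continuous_apply_apply (i.succAbove a) (i.succAbove b)).comp continuous_subtype_val

/-- the standard simplex -/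
abbrev Sx (q : ℕ) : Type := stdSimplex ℝ (Fin (q + 1))

/-- the faces of the standard simplex -/
def incl {q : ℕ} (j : Fin (q + 2)) : C(Sx q, Sx (q + 1)) :=
  ⟨stdSimplex.map j.succAbove, stdSimplex.continuous_map _⟩

/-- singular `q`-chains of the `p`-th space of the nerve -/
abbrev Ch (p q : ℕ) : Type := FreeAbelianGroup C(Sx q, Nv p)

/-- the boundary in the direction of the nerve -/
def dh {p q : ℕ} : Ch (p + 1) q →+ Ch p q :=
  FreeAbelianGroup.lift fun σ => ∑ i : Fin (p + 2), (-1 : ℤ) ^ i.1 • .of ((face i).comp σ)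

/-- the singular boundary -/
def dv {X : Type} [TopologicalSpace X] {q : ℕ} :
    FreeAbelianGroup C(Sx (q + 1), X) →+ FreeAbelianGroup C(Sx q, X) :=
  FreeAbelianGroup.lift fun σ => ∑ j : Fin (q + 2), (-1 : ℤ) ^ j.1 • .of (σ.comp (incl j))

/-- chains of total degree three -/
abbrev T3 : Type := Ch 3 0 × Ch 2 1 × Ch 1 2 × Ch 0 3

/-- cycles of the total complex, whose boundary is `dh + (-1) ^ p dv` -/
def IsCycle (z : T3) : Prop :=
  dh z.1 + dv z.2.1 = 0 ∧ dh z.2.1 - dv z.2.2.1 = 0 ∧ dh z.2.2.1 + dv z.2.2.2 = 0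

/-- boundaries of the total complex -/
def IsBdry (z : T3) : Prop :=
  ∃ (a : Ch 4 0) (b : Ch 3 1) (c : Ch 2 2) (d : Ch 1 3) (e : Ch 0 4),
    z = (dh a - dv b, dh b + dv c, dh c - dv d, dh d + dv e)

/-- `I` is integration of the closed one-form `log (g' ∘ f) d log f'` over the paths in the space
of composable pairs of germs `(f, g)` -/
def IsGV (I : Ch 2 1 →+ ℝ) : Prop :=
  (∀ w : Ch 2 2, I (dv w) = 0) ∧
    ∀ (σ : C(Sx 1, Nv 2)) (s : Sx 1 → ℝ) (f g : ℝ → ℝ),
      (∀ t, (σ t).1 0 1 = germ f (s t) ∧ (σ t).1 1 2 = germ g (f (s t))) →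
      I (.of σ) = ∫ x in s (stdSimplex.vertex 0)..s (stdSimplex.vertex 1),
        Real.log (deriv g (f x)) * (deriv (deriv f) x / deriv f x)

/-- the Godbillon-Vey map is an isomorphism from the third homology group onto the reals -/
def Main : Prop :=
  (∃! I, IsGV I) ∧ ∀ I, IsGV I → (∀ z, IsCycle z → (I z.2.1 = 0 ↔ IsBdry z)) ∧
    ∀ r : ℝ, ∃ z, IsCycle z ∧ I z.2.1 = r

end

end Pool.Agent.P.MP_7bb7e1_gt.D
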