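import Pool.Agent.P.MP_7bb7e1_gt.D.Stmt

/-! Subdivision of singular simplices of dimension one and two. -/

namespace Pool.Agent.P.MP_7bb7e1_gt.D

open Filter Topology FreeAbelianGroup Finset

noncomputable section

abbrev FA := FreeAbelianGroup

abbrev vx {q : ℕ} (i : Fin (q + 1)) : Sx q := stdSimplex.vertex i

/-- the affine simplex with given vertices -/
def aff {n q : ℕ} (v : Fin (n + 1) → Sx q) : C(Sx n, Sx q) where
  toFun t := ⟨∑ i, t i • (v i : Fin (q + 1) → ℝ),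
    (convex_stdSimplex ℝ _).sum_mem (fun i _ => stdSimplex.zero_le t i) (stdSimplex.sum_eq_one t)
      fun i _ => (v i).2⟩
  continuous_toFun := by
    refine Continuous.subtype_mk (continuous_finsetSum _ fun i _ => ?_) _
    have h : Continuous fun t : Sx n => t i := (continuous_apply i).comp continuous_subtype_val
    exact h.smul continuous_const

lemma aff_apply {n q : ℕ} (v : Fin (n + 1) → Sx q) (t : Sx n) (k : Fin (q + 1)) :
    aff v t k = ∑ i, t i * v i k := by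
  change (∑ i, t i • (v i : Fin (q + 1) → ℝ)) k = _
  simp [Finset.sum_apply]

lemma aff_vx {n q : ℕ} (v : Fin (n + 1) → Sx q) (i : Fin (n + 1)) : aff v (vx i) = v i := by
  ext k
  simp [aff_apply, Pi.single_apply]

lemma aff_id {q : ℕ} : aff (vx (q := q)) = ContinuousMap.id _ := by
  ext t k
  simp [aff_apply, Pi.single_apply]

lemma aff_aff {m n q : ℕ} (w : Fin (n + 1) → Sx q) (v : Fin (m + 1) → Sx n) :
    (aff w).comp (aff v) = aff fun i => aff w (v i) := by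
  ext t k
  simp only [ContinuousMap.comp_apply, aff_apply, sum_mul, mul_sum, mul_assoc]
  exact sum_comm

lemma aff_incl {n q : ℕ} (v : Fin (n + 2) → Sx q) (j : Fin (n + 2)) :
    (aff v).comp (incl j) = aff fun i => v (j.succAbove i) := by
  ext t k
  simp only [ContinuousMap.comp_apply, aff_apply, incl, ContinuousMap.coe_mk, stdSimplex.map_coe,
    FunOnFinite.linearMap_apply_apply, sum_mul]
  rw [← sum_fiberwise univ j.succAbove]
  refine sum_congr rfl fun a _ => sum_congr rfl fun i hi => ?_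
  rw [(mem_filter.mp hi).2]

/-- the midpoint -/
def mid {q : ℕ} (a b : Sx q) : Sx q :=
  ⟨(1 / 2 : ℝ) • (a : Fin (q + 1) → ℝ) + (1 / 2 : ℝ) • (b : Fin (q + 1) → ℝ),
    convex_stdSimplex ℝ _ a.2 b.2 (by norm_num) (by norm_num) (by norm_num)⟩

lemma mid_apply {q : ℕ} (a b : Sx q) (k : Fin (q + 1)) : mid a b k = (a k + b k) / 2 := by
  change ((1 / 2 : ℝ) • (a : Fin (q + 1) → ℝ) + (1 / 2 : ℝ) • (b : Fin (q + 1) → ℝ)) k = _
  simp only [Pi.add_apply, Pi.smul_apply, smul_eq_mul]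
  ring

lemma aff_mid {n q : ℕ} (w : Fin (n + 1) → Sx q) (a b : Sx n) :
    aff w (mid a b) = mid (aff w a) (aff w b) := by
  ext k
  simp only [aff_apply, mid_apply, ← sum_add_distrib, sum_div]
  exact sum_congr rfl fun _ _ => by ring

/-- coordinatewise closeness -/
def Cl {q : ℕ} (d : ℝ) (a b : Sx q) : Prop := ∀ k, |a k - b k| ≤ d

lemma Cl.symm {q : ℕ} {d : ℝ} {a b : Sx q} (h : Cl d a b) : Cl d b a :=
  fun k => by rw [abs_sub_comm]; exact h k

lemma cl_one {q : ℕ} (a b : Sx q) : Cl 1 a b := fun k =>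
  abs_le.mpr ⟨by linarith [stdSimplex.zero_le a k, stdSimplex.le_one b k], by linarith [stdSimplex.zero_le b k, stdSimplex.le_one a k]⟩

lemma Cl.m1 {q : ℕ} {d : ℝ} {a b : Sx q} (h : Cl d a b) : Cl (d / 2) a (mid a b) := fun k => by
  have := abs_le.mp (h k)
  rw [mid_apply]
  exact abs_le.mpr ⟨by linarith, by linarith⟩

lemma Cl.m2 {q : ℕ} {d : ℝ} {a b : Sx q} (h : Cl d a b) : Cl (d / 2) (mid a b) b := fun k => by
  have := abs_le.mp (h k)
  rw [mid_apply]
  exact abs_le.mpr ⟨by linarith, by linarith⟩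

lemma Cl.m3 {q : ℕ} {d : ℝ} {a b c : Sx q} (h : Cl d b c) : Cl (d / 2) (mid a b) (mid a c) :=
  fun k => by
    have := abs_le.mp (h k)
    rw [mid_apply, mid_apply]
    exact abs_le.mpr ⟨by linarith, by linarith⟩

lemma Cl.m4 {q : ℕ} {d : ℝ} {a b c : Sx q} (h : Cl d a c) : Cl (d / 2) (mid a b) (mid b c) :=
  fun k => by
    have := abs_le.mp (h k)
    rw [mid_apply, mid_apply]
    exact abs_le.mpr ⟨by linarith, by linarith⟩

lemma Cl.m5 {q : ℕ} {d : ℝ} {a b c : Sx q} (h : Cl d a b) : Cl (d / 2) (mid a c) (mid b c) :=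
  fun k => by
    have := abs_le.mp (h k)
    rw [mid_apply, mid_apply]
    exact abs_le.mpr ⟨by linarith, by linarith⟩

lemma dist_aff_le {n q : ℕ} {v : Fin (n + 1) → Sx q} {d : ℝ} (hd : 0 ≤ d)
    (h : ∀ i, Cl d (v 0) (v i)) (t : Sx n) : dist (aff v t) (v 0) ≤ d := by
  rw [Subtype.dist_eq, dist_pi_le_iff hd]
  intro k
  change dist (aff v t k) (v 0 k) ≤ d
  have e : aff v t k - v 0 k = ∑ i, t i * (v i k - v 0 k) := by
    simp only [mul_sub, sum_sub_distrib, ← sum_mul, stdSimplex.sum_eq_one, one_mul, aff_apply]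
  rw [Real.dist_eq, e]
  refine (abs_sum_le_sum_abs _ _).trans ?_
  calc _ ≤ ∑ i, t i * d := sum_le_sum fun i _ => by
        rw [abs_mul, abs_of_nonneg (stdSimplex.zero_le t i)]
        exact mul_le_mul_of_nonneg_left ((h i).symm k) (stdSimplex.zero_le t i)
    _ = d := by rw [← sum_mul, stdSimplex.sum_eq_one, one_mul]

variable {X X' : Type} [TopologicalSpace X] [TopologicalSpace X'] {q : ℕ}

def A0 (σ : C(Sx q, X)) (a : Sx q) : FA C(Sx 0, X) := of (σ.comp (aff ![a]))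
def A1 (σ : C(Sx q, X)) (a b : Sx q) : FA C(Sx 1, X) := of (σ.comp (aff ![a, b]))
def A2 (σ : C(Sx q, X)) (a b c : Sx q) : FA C(Sx 2, X) := of (σ.comp (aff ![a, b, c]))
def A3 (σ : C(Sx q, X)) (a b c d : Sx q) : FA C(Sx 3, X) := of (σ.comp (aff ![a, b, c, d]))

lemma dv_of (σ : C(Sx (q + 1), X)) :
    dv (of σ) = ∑ j : Fin (q + 2), (-1 : ℤ) ^ j.1 • of (σ.comp (incl j)) := lift_apply_of _ _

lemma dv_aff {n : ℕ} (σ : C(Sx q, X)) (v : Fin (n + 2) → Sx q) :
    dv (of (σ.comp (aff v))) =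
      ∑ j : Fin (n + 2), (-1 : ℤ) ^ j.1 • of (σ.comp (aff fun i => v (j.succAbove i))) := by
  simp only [dv_of, ContinuousMap.comp_assoc, aff_incl]

lemma dv_A1 (σ : C(Sx q, X)) (a b : Sx q) : dv (A1 σ a b) = A0 σ b - A0 σ a := by
  have e0 : (fun i => ![a, b] ((0 : Fin 2).succAbove i)) = ![b] := by
    ext1 i; fin_cases i; rfl
  have e1 : (fun i => ![a, b] ((1 : Fin 2).succAbove i)) = ![a] := by
    ext1 i; fin_cases i; rfl
  rw [A1, dv_aff, Fin.sum_univ_two, e0, e1]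
  simp [A0, sub_eq_add_neg]

lemma dv_A2 (σ : C(Sx q, X)) (a b c : Sx q) :
    dv (A2 σ a b c) = A1 σ b c - A1 σ a c + A1 σ a b := by
  have e0 : (fun i => ![a, b, c] ((0 : Fin 3).succAbove i)) = ![b, c] := by
    ext1 i; fin_cases i <;> rfl
  have e1 : (fun i => ![a, b, c] ((1 : Fin 3).succAbove i)) = ![a, c] := by
    ext1 i; fin_cases i <;> rfl
  have e2 : (fun i => ![a, b, c] ((2 : Fin 3).succAbove i)) = ![a, b] := by
    ext1 i; fin_cases i <;> rfl
  rw [A2, dv_aff, Fin.sum_univ_three, e0, e1, e2]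
  simp [A1, sub_eq_add_neg]

lemma dv_A3 (σ : C(Sx q, X)) (a b c d : Sx q) :
    dv (A3 σ a b c d) = A2 σ b c d - A2 σ a c d + A2 σ a b d - A2 σ a b c := by
  have e0 : (fun i => ![a, b, c, d] ((0 : Fin 4).succAbove i)) = ![b, c, d] := by
    ext1 i; fin_cases i <;> rfl
  have e1 : (fun i => ![a, b, c, d] ((1 : Fin 4).succAbove i)) = ![a, c, d] := by
    ext1 i; fin_cases i <;> rfl
  have e2 : (fun i => ![a, b, c, d] ((2 : Fin 4).succAbove i)) = ![a, b, d] := by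
    ext1 i; fin_cases i <;> rfl
  have e3 : (fun i => ![a, b, c, d] ((3 : Fin 4).succAbove i)) = ![a, b, c] := by
    ext1 i; fin_cases i <;> rfl
  have h3 : (-1 : ℤ) ^ (3 : Fin 4).1 = -1 := by decide
  rw [A3, dv_aff, Fin.sum_univ_four, e0, e1, e2, e3, h3]
  simp [A2, sub_eq_add_neg]

lemma of_eq_A1 (σ : C(Sx 1, X)) : of σ = A1 σ (vx 0) (vx 1) := by
  have : (![vx 0, vx 1] : Fin 2 → Sx 1) = vx := by ext1 i; fin_cases i <;> rfl
  rw [A1, this, aff_id, ContinuousMap.comp_id]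

lemma of_eq_A2 (σ : C(Sx 2, X)) : of σ = A2 σ (vx 0) (vx 1) (vx 2) := by
  have : (![vx 0, vx 1, vx 2] : Fin 3 → Sx 2) = vx := by ext1 i; fin_cases i <;> rfl
  rw [A2, this, aff_id, ContinuousMap.comp_id]

lemma A1_aff {n : ℕ} (σ : C(Sx q, X)) (w : Fin (n + 1) → Sx q) (a b : Sx n) :
    A1 (σ.comp (aff w)) a b = A1 σ (aff w a) (aff w b) := by
  have : (fun i => aff w (![a, b] i)) = ![aff w a, aff w b] := by ext1 i; fin_cases i <;> rfl
  rw [A1, ContinuousMap.comp_assoc, aff_aff, this, A1]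

lemma A2_aff {n : ℕ} (σ : C(Sx q, X)) (w : Fin (n + 1) → Sx q) (a b c : Sx n) :
    A2 (σ.comp (aff w)) a b c = A2 σ (aff w a) (aff w b) (aff w c) := by
  have : (fun i => aff w (![a, b, c] i)) = ![aff w a, aff w b, aff w c] := by
    ext1 i; fin_cases i <;> rfl
  rw [A2, ContinuousMap.comp_assoc, aff_aff, this, A2]

def s1 (σ : C(Sx q, X)) (a b : Sx q) : FA C(Sx 1, X) := A1 σ a (mid a b) + A1 σ (mid a b) b

def s2 (σ : C(Sx q, X)) (a b c : Sx q) : FA C(Sx 2, X) :=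
  A2 σ a (mid a b) (mid a c) + A2 σ (mid a b) b (mid b c) + A2 σ (mid a c) (mid b c) c -
    A2 σ (mid a b) (mid a c) (mid b c)

def t2 (σ : C(Sx q, X)) (a b c : Sx q) : FA C(Sx 3, X) :=
  A3 σ a a b c - A3 σ a a (mid a b) (mid a c) - A3 σ a (mid a b) b (mid b c) -
    A3 σ a (mid a c) (mid b c) c + A3 σ a (mid a b) (mid a c) (mid b c) + A3 σ a b (mid b c) c -
    A3 σ a a (mid a c) c + A3 σ a a (mid a b) b

def sd1 : FA C(Sx 1, X) →+ FA C(Sx 1, X) := lift fun σ => s1 σ (vx 0) (vx 1)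
def T1 : FA C(Sx 1, X) →+ FA C(Sx 2, X) := lift fun σ => -A2 σ (vx 0) (mid (vx 0) (vx 1)) (vx 1)
def sd2 : FA C(Sx 2, X) →+ FA C(Sx 2, X) := lift fun σ => s2 σ (vx 0) (vx 1) (vx 2)
def T2 : FA C(Sx 2, X) →+ FA C(Sx 3, X) := lift fun σ => t2 σ (vx 0) (vx 1) (vx 2)

lemma sd1_A1 (σ : C(Sx q, X)) (a b : Sx q) : sd1 (A1 σ a b) = s1 σ a b := by
  rw [A1, sd1, lift_apply_of]
  simp only [s1, A1_aff, aff_mid, aff_vx]
  rfl

lemma T1_A1 (σ : C(Sx q, X)) (a b : Sx q) : T1 (A1 σ a b) = -A2 σ a (mid a b) b := by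
  rw [A1, T1, lift_apply_of]
  simp only [A2_aff, aff_mid, aff_vx]
  rfl

lemma sd2_A2 (σ : C(Sx q, X)) (a b c : Sx q) : sd2 (A2 σ a b c) = s2 σ a b c := by
  rw [A2, sd2, lift_apply_of]
  simp only [s2, A2_aff, aff_mid, aff_vx]
  rfl

lemma hom_eq {α β : Type} [AddCommGroup β] (f g : FA α →+ β) (h : ∀ a, f (of a) = g (of a))
    (z : FA α) : f z = g z := DFunLike.congr_fun (lift_ext f g h) z

lemma dv_T1 (z : FA C(Sx 1, X)) : dv (T1 z) = z - sd1 z := by
  refine hom_eq (dv.comp T1) (AddMonoidHom.id _ - sd1) (fun σ => ?_) z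
  simp only [AddMonoidHom.comp_apply, AddMonoidHom.sub_apply, AddMonoidHom.id_apply]
  rw [of_eq_A1, T1_A1, sd1_A1, map_neg, dv_A2, s1]
  abel

lemma dv_sd1 (z : FA C(Sx 1, X)) : dv (sd1 z) = dv z := by
  refine hom_eq (dv.comp sd1) dv (fun σ => ?_) z
  simp only [AddMonoidHom.comp_apply]
  rw [of_eq_A1, sd1_A1, s1, map_add, dv_A1, dv_A1, dv_A1]
  abel

lemma dv_sd2 (z : FA C(Sx 2, X)) : dv (sd2 z) = sd1 (dv z) := by
  refine hom_eq (dv.comp sd2) (sd1.comp dv) (fun σ => ?_) z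
  simp only [AddMonoidHom.comp_apply]
  rw [of_eq_A2, sd2_A2, dv_A2]
  simp only [s2, map_add, map_sub, dv_A2, sd1_A1, s1]
  abel

lemma dv_T2 (z : FA C(Sx 2, X)) : dv (T2 z) = z - sd2 z - T1 (dv z) := by
  refine hom_eq (dv.comp T2) (AddMonoidHom.id _ - sd2 - T1.comp dv) (fun σ => ?_) z
  simp only [AddMonoidHom.comp_apply, AddMonoidHom.sub_apply, AddMonoidHom.id_apply]
  rw [T2, lift_apply_of, of_eq_A2, sd2_A2, dv_A2]
  simp only [t2, s2, map_add, map_sub, dv_A3, T1_A1]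
  abel

/-- the map on chains induced by a continuous map -/
def post (φ : C(X, X')) : FA C(Sx q, X) →+ FA C(Sx q, X') := FreeAbelianGroup.map φ.comp

lemma post_of (φ : C(X, X')) (σ : C(Sx q, X)) : post φ (of σ) = of (φ.comp σ) := rfl

lemma post_dv (φ : C(X, X')) (z : FA C(Sx (q + 1), X)) : post φ (dv z) = dv (post φ z) := by
  refine hom_eq ((post φ).comp dv) (dv.comp (post φ)) (fun σ => ?_) z
  simp only [AddMonoidHom.comp_apply, post_of, dv_of, map_sum, map_zsmul, ContinuousMap.comp_assoc]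

lemma post_sd1 (φ : C(X, X')) (z : FA C(Sx 1, X)) : post φ (sd1 z) = sd1 (post φ z) := by
  refine hom_eq ((post φ).comp sd1) (sd1.comp (post φ)) (fun σ => ?_) z
  simp only [AddMonoidHom.comp_apply, post_of, sd1, lift_apply_of, s1, A1, map_add,
    ContinuousMap.comp_assoc]

lemma post_T1 (φ : C(X, X')) (z : FA C(Sx 1, X)) : post φ (T1 z) = T1 (post φ z) := by
  refine hom_eq ((post φ).comp T1) (T1.comp (post φ)) (fun σ => ?_) z
  simp only [AddMonoidHom.comp_apply, post_of, T1, lift_apply_of, A2, map_neg,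
    ContinuousMap.comp_assoc]

lemma post_sd2 (φ : C(X, X')) (z : FA C(Sx 2, X)) : post φ (sd2 z) = sd2 (post φ z) := by
  refine hom_eq ((post φ).comp sd2) (sd2.comp (post φ)) (fun σ => ?_) z
  simp only [AddMonoidHom.comp_apply, post_of, sd2, lift_apply_of, s2, A2, map_add, map_sub,
    ContinuousMap.comp_assoc]

lemma dh_eq {p : ℕ} (z : Ch (p + 1) q) :
    dh z = ∑ i : Fin (p + 2), (-1 : ℤ) ^ i.1 • post (face i) z := by
  refine (hom_eq dh (∑ i : Fin (p + 2), (-1 : ℤ) ^ i.1 • post (face i)) (fun σ => ?_) z).trans ?_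
  · simp only [dh, lift_apply_of, AddMonoidHom.finsetSum_apply, AddMonoidHom.zsmul_apply, post_of]
  · simp only [AddMonoidHom.finsetSum_apply, AddMonoidHom.zsmul_apply]

lemma dh_dv {p : ℕ} (z : Ch (p + 1) (q + 1)) : dh (dv z) = dv (dh z) := by
  simp only [dh_eq, map_sum, map_zsmul, post_dv]

lemma dh_sd1 {p : ℕ} (z : Ch (p + 1) 1) : dh (sd1 z) = sd1 (dh z) := by
  simp only [dh_eq, map_sum, map_zsmul, post_sd1]

lemma dh_T1 {p : ℕ} (z : Ch (p + 1) 1) : dh (T1 z) = T1 (dh z) := by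
  simp only [dh_eq, map_sum, map_zsmul, post_T1]

lemma dh_sd2 {p : ℕ} (z : Ch (p + 1) 2) : dh (sd2 z) = sd2 (dh z) := by
  simp only [dh_eq, map_sum, map_zsmul, post_sd2]

lemma dh_dh (z : Ch 2 q) : dh (dh z) = 0 := by
  refine hom_eq (dh.comp dh) 0 (fun σ => ?_) z
  have e (i : Fin 2) (j : Fin 3) (i' : Fin 2) (j' : Fin 3)
      (h : j.succAbove (i.succAbove 0) = j'.succAbove (i'.succAbove 0)) :
      (face i).comp ((face j).comp σ) = (face i').comp ((face j').comp σ) := by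
    ext t a b
    change (σ t).1 _ _ = (σ t).1 _ _
    rw [Fin.fin_one_eq_zero a, Fin.fin_one_eq_zero b, h]
  simp only [AddMonoidHom.comp_apply, dh_eq, AddMonoidHom.zero_apply, map_sum, map_zsmul, post_of]
  simp only [Fin.sum_univ_succ, Fin.sum_univ_zero]
  have e1 := e 0 0 0 1 rfl
  have e2 := e 1 0 0 2 rfl
  have e3 := e 1 1 1 2 rfl
  simp only [Nat.reduceAdd, Fin.succ_zero_eq_one, Fin.succ_one_eq_two, Fin.isValue] at e1 e2 e3 ⊢
  rw [e1, e2, e3]
  simp
  abel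

/-! ### small chains -/

/-- chains subordinate to a family of sets -/
def Sm {ι : Type} (U : ι → Set X) (n : ℕ) : AddSubgroup (FA C(Sx n, X)) :=
  AddSubgroup.closure {z | ∃ (τ : C(Sx n, X)) (i : ι), (∀ t, τ t ∈ U i) ∧ z = of τ}

lemma leb {ι : Type} {U : ι → Set X} (ho : ∀ i, IsOpen (U i)) (hc : ∀ x, ∃ i, x ∈ U i)
    (σ : C(Sx q, X)) : ∀ᶠ m : ℕ in atTop, ∀ (n : ℕ) (v : Fin (n + 1) → Sx q),
      (∀ i, Cl (1 / 2 ^ m) (v 0) (v i)) → of (σ.comp (aff v)) ∈ Sm U n := by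
  obtain ⟨δ, hδ, h⟩ := lebesgue_number_lemma_of_metric (s := Set.univ) (c := fun i => σ ⁻¹' U i)
    isCompact_univ (fun i => (ho i).preimage σ.continuous)
    (fun t _ => Set.mem_iUnion.mpr (hc (σ t)))
  have : ∀ᶠ m : ℕ in atTop, (1 / 2 : ℝ) ^ m < δ :=
    (tendsto_pow_atTop_nhds_zero_of_lt_one (by norm_num) (by norm_num)).eventually_lt_const hδ
  filter_upwards [this] with m hm n v hv
  obtain ⟨i, hi⟩ := h (v 0) trivial
  refine AddSubgroup.subset_closure ⟨_, i, fun t => hi ?_, rfl⟩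
  rw [one_div_pow] at hm
  exact (dist_aff_le (by positivity) hv t).trans_lt hm

lemma ev_mem {α : Type} {β : Type} [AddCommGroup β] (f : ℕ → FA α →+ β) (W : AddSubgroup β)
    (h : ∀ a, ∀ᶠ m in atTop, f m (of a) ∈ W) (z : FA α) : ∀ᶠ m in atTop, f m z ∈ W := by
  induction z using FreeAbelianGroup.induction_on with
  | zero => exact .of_forall fun m => by rw [map_zero]; exact W.zero_mem
  | of a => exact h a
  | neg a ih => exact ih.mono fun m hm => by rw [map_neg]; exact W.neg_mem hm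
  | add a b ha hb => exact (ha.and hb).mono fun m hm => by rw [map_add]; exact W.add_mem hm.1 hm.2

/-- iterates -/
def itr {β : Type} [AddCommGroup β] (f : β →+ β) : ℕ → β →+ β
  | 0 => AddMonoidHom.id _
  | m + 1 => f.comp (itr f m)

lemma itr_mem {β : Type} [AddCommGroup β] (f : β →+ β) (S : ℝ → Set β)
    (h : ∀ d, ∀ z ∈ S d, f z ∈ AddSubgroup.closure (S (d / 2))) {z : β} (hz : z ∈ S 1) (m : ℕ) :
    itr f m z ∈ AddSubgroup.closure (S (1 / 2 ^ m)) := by
  induction m with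
  | zero => exact AddSubgroup.subset_closure (by simpa [itr] using hz)
  | succ m ih =>
    have : AddSubgroup.closure (S (1 / 2 ^ m)) ≤
        (AddSubgroup.closure (S (1 / 2 ^ (m + 1)))).comap f :=
      (AddSubgroup.closure_le _).mpr fun z hz => by
        have := h _ z hz
        rwa [div_div, ← pow_succ] at this
    exact this ih

lemma small1 {ι : Type} {U : ι → Set X} (ho : ∀ i, IsOpen (U i)) (hc : ∀ x, ∃ i, x ∈ U i)
    (z : FA C(Sx 1, X)) : ∀ᶠ m in atTop, itr sd1 m z ∈ Sm U 1 := by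
  refine ev_mem _ _ (fun σ => ?_) z
  filter_upwards [leb ho hc σ] with m hm
  have h1 := itr_mem sd1 (fun d => {z | ∃ a b, Cl d a b ∧ z = A1 σ a b}) (by
    rintro d _ ⟨a, b, h, rfl⟩
    rw [sd1_A1]
    exact add_mem (AddSubgroup.subset_closure ⟨_, _, h.m1, rfl⟩)
      (AddSubgroup.subset_closure ⟨_, _, h.m2, rfl⟩)) ⟨_, _, cl_one _ _, of_eq_A1 σ⟩ m
  refine (AddSubgroup.closure_le _).mpr ?_ h1
  rintro _ ⟨a, b, h, rfl⟩
  refine hm _ _ fun i => ?_
  fin_cases i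
  · exact fun k => by simp
  · exact h

lemma small2 {ι : Type} {U : ι → Set X} (ho : ∀ i, IsOpen (U i)) (hc : ∀ x, ∃ i, x ∈ U i)
    (z : FA C(Sx 2, X)) : ∀ᶠ m in atTop, itr sd2 m z ∈ Sm U 2 := by
  refine ev_mem _ _ (fun σ => ?_) z
  filter_upwards [leb ho hc σ] with m hm
  have h1 := itr_mem sd2 (fun d => {z | ∃ a b c, Cl d a b ∧ Cl d a c ∧ Cl d b c ∧ z = A2 σ a b c})
    (by
      rintro d _ ⟨a, b, c, h1, h2, h3, rfl⟩
      rw [sd2_A2]
      exact sub_mem (add_mem (add_mem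
        (AddSubgroup.subset_closure ⟨_, _, _, h1.m1, h2.m1, h3.m3, rfl⟩)
        (AddSubgroup.subset_closure ⟨_, _, _, h1.m2, h2.m4, h3.m1, rfl⟩))
        (AddSubgroup.subset_closure ⟨_, _, _, h1.m5, h2.m2, h3.m2, rfl⟩))
        (AddSubgroup.subset_closure ⟨_, _, _, h3.m3, h2.m4, h1.m5, rfl⟩))
    ⟨_, _, _, cl_one _ _, cl_one _ _, cl_one _ _, of_eq_A2 σ⟩ m
  refine (AddSubgroup.closure_le _).mpr ?_ h1
  rintro _ ⟨a, b, c, h1, h2, -, rfl⟩
  refine hm _ _ fun i => ?_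
  fin_cases i
  · exact fun k => by simp
  · exact h1
  · exact h2

lemma small0 {ι : Type} {U : ι → Set X} (hc : ∀ x, ∃ i, x ∈ U i) (z : FA C(Sx 0, X)) :
    z ∈ Sm U 0 := by
  have : ∀ᶠ _ : ℕ in atTop, AddMonoidHom.id _ z ∈ Sm U 0 :=
    ev_mem (fun _ => AddMonoidHom.id _) _ (fun σ => .of_forall fun _ => by
      obtain ⟨i, hi⟩ := hc (σ (vx 0))
      exact AddSubgroup.subset_closure ⟨σ, i, fun t => by
        rwa [Subsingleton.elim t (vx 0)], rfl⟩) z
  exact this.exists.choose_spec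

lemma dv_itr (m : ℕ) (z : FA C(Sx 2, X)) : dv (itr sd2 m z) = itr sd1 m (dv z) := by
  induction m with
  | zero => rfl
  | succ m ih => exact (dv_sd2 _).trans (congrArg sd1 ih)

lemma dh_itr {p : ℕ} (m : ℕ) (z : Ch (p + 1) 1) : dh (itr sd1 m z) = itr sd1 m (dh z) := by
  induction m with
  | zero => rfl
  | succ m ih => exact (dh_sd1 _).trans (congrArg sd1 ih)

end

end Pool.Agent.P.MP_7bb7e1_gt.D
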