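import Pool.Agent.P.MP_7bb7e1_gt.D.Defs
import Pool.Agent.P.MP_7bb7e1_gt.D.Fin

/-! The main theorem in terms of the definitions of `Defs`. -/

namespace Pool.Agent.P.MP_7bb7e1_gt.BG

theorem isGV_iff (I : FreeAbelianGroup (Sp 2 1) →+ ℝ) : IsGV I ↔ D.IsGV I := Iff.rfl

theorem isCycle_iff (a : FreeAbelianGroup (Sp 3 0)) (b : FreeAbelianGroup (Sp 2 1))
    (c : FreeAbelianGroup (Sp 1 2)) (d : FreeAbelianGroup (Sp 0 3)) :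
    IsCycle a b c d ↔ D.IsCycle (a, b, c, d) := Iff.rfl

theorem isBdry_iff (a : FreeAbelianGroup (Sp 3 0)) (b : FreeAbelianGroup (Sp 2 1))
    (c : FreeAbelianGroup (Sp 1 2)) (d : FreeAbelianGroup (Sp 0 3)) :
    IsBdry a b c d ↔ D.IsBdry (a, b, c, d) :=
  ⟨fun ⟨u, v, w, x, y, h1, h2, h3, h4⟩ =>
    ⟨u, v, w, x, y, Prod.ext h1 (Prod.ext h2 (Prod.ext h3 h4))⟩,
  fun ⟨u, v, w, x, y, h⟩ => ⟨u, v, w, x, y, congrArg (·.1) h, congrArg (·.2.1) h,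
    congrArg (·.2.2.1) h, congrArg (·.2.2.2) h⟩⟩

theorem transfer (h : D.Main) : (∃! I : FreeAbelianGroup (Sp 2 1) →+ ℝ, IsGV I) ∧
    ∀ I : FreeAbelianGroup (Sp 2 1) →+ ℝ, IsGV I →
      (∀ a b c d, IsCycle a b c d → (I b = 0 ↔ IsBdry a b c d)) ∧
        ∀ r : ℝ, ∃ a b c d, IsCycle a b c d ∧ I b = r := by
  refine ⟨h.1, fun I hI => ⟨fun a b c d hz => ?_, fun r => ?_⟩⟩
  · exact ((h.2 I hI).1 (a, b, c, d) hz).trans (isBdry_iff a b c d).symm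
  · obtain ⟨⟨a, b, c, d⟩, h1, h2⟩ := (h.2 I hI).2 r
    exact ⟨a, b, c, d, h1, h2⟩

end Pool.Agent.P.MP_7bb7e1_gt.BG
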